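import Mathlib

set_option autoImplicit false

/-!
H25G (helper25): elementary sums, Chebyshev's bound with a weight, smooth numbers.
-/

namespace Pool.Agent.H25G

open Finset

/-- `∑_{k ≤ M} k^(a-1) ≤ M^a / a` -/
lemma sum_rpow (a : ℝ) (ha : 0 < a) (ha1 : a ≤ 1) (M : ℕ) :
    ∑ k ∈ Icc 1 M, (k : ℝ) ^ (a - 1) ≤ (M : ℝ) ^ a / a := by
  induction M with
  | zero => simp [Real.zero_rpow ha.ne']
  | succ M ih =>
    rw [Finset.sum_Icc_succ_top (by omega)]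
    have hM : (0 : ℝ) < ((M + 1 : ℕ) : ℝ) := by positivity
    have hM' : ((M + 1 : ℕ) : ℝ) = M + 1 := by push_cast; ring
    have h1 : (M : ℝ) ^ a ≤ ((M + 1 : ℕ) : ℝ) ^ a - a * ((M + 1 : ℕ) : ℝ) ^ (a - 1) := by
      have e : (M : ℝ) = ((M + 1 : ℕ) : ℝ) * (1 + -(1 / ((M + 1 : ℕ) : ℝ))) := by
        rw [hM']; field_simp; ring
      have h0 : (0 : ℝ) ≤ 1 + -(1 / ((M + 1 : ℕ) : ℝ)) := by
        have : 1 / ((M + 1 : ℕ) : ℝ) ≤ 1 := by
          rw [div_le_one hM, hM']; have := Nat.cast_nonneg (α := ℝ) M; linarith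
        linarith
      have h2 := rpow_one_add_le_one_add_mul_self (s := -(1 / ((M + 1 : ℕ) : ℝ))) (by linarith)
        ha.le ha1
      calc (M : ℝ) ^ a = (((M + 1 : ℕ) : ℝ) * (1 + -(1 / ((M + 1 : ℕ) : ℝ)))) ^ a := by rw [← e]
        _ = ((M + 1 : ℕ) : ℝ) ^ a * (1 + -(1 / ((M + 1 : ℕ) : ℝ))) ^ a := Real.mul_rpow hM.le h0
        _ ≤ ((M + 1 : ℕ) : ℝ) ^ a * (1 + a * -(1 / ((M + 1 : ℕ) : ℝ))) := by gcongr
        _ = ((M + 1 : ℕ) : ℝ) ^ a - a * ((M + 1 : ℕ) : ℝ) ^ (a - 1) := by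
            rw [Real.rpow_sub_one hM.ne']; field_simp; ring
    have h3 : (M : ℝ) ^ a / a ≤ ((M + 1 : ℕ) : ℝ) ^ a / a - ((M + 1 : ℕ) : ℝ) ^ (a - 1) := by
      rw [div_le_iff₀ ha, sub_mul, div_mul_cancel₀ _ ha.ne']
      linarith
    linarith

/-- Abel summation: a density bound gives a bound with a decreasing weight -/
lemma abel (a w : ℕ → ℝ) (c : ℝ) (hw : ∀ n, 1 ≤ n → w (n + 1) ≤ w n) (hw0 : ∀ n, 0 ≤ w n)
    (ha : ∀ n, ∑ m ∈ Icc 1 n, a m ≤ c * n) (N : ℕ) :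
    ∑ m ∈ Icc 1 N, a m * w m ≤ c * ∑ m ∈ Icc 1 N, w m := by
  have hD : ∀ n : ℕ, ∑ m ∈ Icc 1 n, (c - a m) = c * n - ∑ m ∈ Icc 1 n, a m := by
    intro n; rw [Finset.sum_sub_distrib]; simp [mul_comm]
  have key : ∀ n : ℕ, 1 ≤ n → (∑ m ∈ Icc 1 n, (c - a m)) * w n ≤ ∑ m ∈ Icc 1 n, (c - a m) * w m := by
    intro n hn
    induction n, hn using Nat.le_induction with
    | base => simp
    | succ n hn ih =>
      rw [Finset.sum_Icc_succ_top (by omega), Finset.sum_Icc_succ_top (by omega)]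
      have h1 : 0 ≤ ∑ m ∈ Icc 1 n, (c - a m) := by rw [hD]; linarith [ha n]
      have h2 := hw n hn
      nlinarith
  rcases Nat.eq_zero_or_pos N with h0 | hN
  · subst h0; simp
  · have h1 := key N hN
    have h2 : 0 ≤ (∑ m ∈ Icc 1 N, (c - a m)) * w N :=
      mul_nonneg (by rw [hD]; linarith [ha N]) (hw0 N)
    have h3 : ∑ m ∈ Icc 1 N, (c - a m) * w m = c * ∑ m ∈ Icc 1 N, w m - ∑ m ∈ Icc 1 N, a m * w m := by
      rw [Finset.mul_sum, ← Finset.sum_sub_distrib]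
      exact Finset.sum_congr rfl fun m _ => by ring
    linarith

/-- `∑_{q ≤ N} log q ≤ N log 4` -/
lemma theta_bd (N : ℕ) : ∑ m ∈ Icc 1 N, (if m.Prime then Real.log m else 0) ≤ Real.log 4 * N := by
  have h := Chebyshev.theta_le_log4_mul_x (x := (N : ℝ)) (by positivity)
  have e : Chebyshev.theta (N : ℝ) = ∑ m ∈ Icc 1 N, (if m.Prime then Real.log m else 0) := by
    rw [Chebyshev.theta_eq_sum_Icc, ← Finset.sum_filter, Nat.floor_natCast]
    refine Finset.sum_congr ?_ fun _ _ => rfl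
    ext p
    simp only [mem_filter, mem_Icc]
    constructor
    · rintro ⟨h1, h2⟩; exact ⟨⟨h2.one_lt.le, h1.2⟩, h2⟩
    · rintro ⟨h1, h2⟩; exact ⟨⟨by omega, h1.2⟩, h2⟩
  rw [← e]; exact h

/-- `∑_{q ≤ N} (log q) √(N/q) ≤ 2 log 4 N` -/
lemma cheb_half (N : ℕ) :
    ∑ q ∈ (Icc 1 N).filter Nat.Prime, Real.log q * ((N : ℝ) / q) ^ (1 / 2 : ℝ) ≤ 2 * Real.log 4 * N := by
  have h1 := abel (fun m => if m.Prime then Real.log m else 0) (fun m => (m : ℝ) ^ ((1 / 2 : ℝ) - 1))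
    (Real.log 4) (fun n hn => by
      have hn' : (0 : ℝ) < n := by exact_mod_cast hn
      apply Real.rpow_le_rpow_of_nonpos hn' (by push_cast; linarith) (by norm_num))
    (fun n => by positivity) theta_bd N
  have h2 := sum_rpow (1 / 2) (by norm_num) (by norm_num) N
  have hl : 0 ≤ Real.log 4 := Real.log_nonneg (by norm_num)
  rcases Nat.eq_zero_or_pos N with h0 | hN
  · subst h0; simp
  have hN' : (0 : ℝ) < N := by exact_mod_cast hN
  have e : ∑ q ∈ (Icc 1 N).filter Nat.Prime, Real.log q * ((N : ℝ) / q) ^ (1 / 2 : ℝ) =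
      (N : ℝ) ^ (1 / 2 : ℝ) * ∑ m ∈ Icc 1 N, (if m.Prime then Real.log m else 0) *
        (m : ℝ) ^ ((1 / 2 : ℝ) - 1) := by
    rw [Finset.sum_filter, Finset.mul_sum]
    refine Finset.sum_congr rfl fun q hq => ?_
    have hq' : (0 : ℝ) < q := by exact_mod_cast (mem_Icc.1 hq).1
    split_ifs with hp
    · rw [Real.div_rpow hN'.le hq'.le, show (1 / 2 : ℝ) - 1 = -(1 / 2) by norm_num, Real.rpow_neg hq'.le]
      field_simp
    · simp
  rw [e]
  calc (N : ℝ) ^ (1 / 2 : ℝ) * ∑ m ∈ Icc 1 N, (if m.Prime then Real.log m else 0) *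
        (m : ℝ) ^ ((1 / 2 : ℝ) - 1) ≤ (N : ℝ) ^ (1 / 2 : ℝ) * (Real.log 4 * ((N : ℝ) ^ (1 / 2 : ℝ) / (1 / 2))) := by
        gcongr
        exact h1.trans (mul_le_mul_of_nonneg_left h2 hl)
    _ = 2 * Real.log 4 * ((N : ℝ) ^ (1 / 2 : ℝ) * (N : ℝ) ^ (1 / 2 : ℝ)) := by ring
    _ = 2 * Real.log 4 * N := by
        rw [← Real.rpow_add hN']; norm_num

/-- `∑_{N^(2/3) < q ≤ N} √(N/q) ≤ 9 N / log N` -/
lemma cheb_top (N : ℕ) (hN : 2 ≤ N) :
    ∑ q ∈ (Icc 1 N).filter (fun q : ℕ => q.Prime ∧ (N : ℝ) ^ (2 / 3 : ℝ) < q), ((N : ℝ) / q) ^ (1 / 2 : ℝ) ≤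
      9 * N / Real.log N := by
  have hN' : (1 : ℝ) < N := by exact_mod_cast hN
  have hL : 0 < Real.log N := Real.log_pos hN'
  have h4 : Real.log 4 ≤ 3 := by
    have := Real.log_le_sub_one_of_pos (x := 4) (by norm_num); linarith
  rw [le_div_iff₀ hL, Finset.sum_mul]
  calc ∑ q ∈ (Icc 1 N).filter (fun q : ℕ => q.Prime ∧ (N : ℝ) ^ (2 / 3 : ℝ) < q),
        ((N : ℝ) / q) ^ (1 / 2 : ℝ) * Real.log N
      ≤ ∑ q ∈ (Icc 1 N).filter (fun q : ℕ => q.Prime ∧ (N : ℝ) ^ (2 / 3 : ℝ) < q),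
        3 / 2 * (Real.log q * ((N : ℝ) / q) ^ (1 / 2 : ℝ)) := by
        refine Finset.sum_le_sum fun q hq => ?_
        obtain ⟨hq1, hq2, hq3⟩ := mem_filter.1 hq
        have h5 : 2 / 3 * Real.log N ≤ Real.log q := by
          rw [← Real.log_rpow (by linarith)]
          exact Real.log_le_log (by positivity) hq3.le
        have h6 : 0 ≤ ((N : ℝ) / q) ^ (1 / 2 : ℝ) := by positivity
        nlinarith
    _ ≤ ∑ q ∈ (Icc 1 N).filter Nat.Prime, 3 / 2 * (Real.log q * ((N : ℝ) / q) ^ (1 / 2 : ℝ)) := by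
        refine Finset.sum_le_sum_of_subset_of_nonneg ?_ fun q hq _ => ?_
        · intro q hq
          rw [mem_filter] at hq ⊢
          exact ⟨hq.1, hq.2.1⟩
        · have hq' : (1 : ℝ) ≤ q := by exact_mod_cast (mem_Icc.1 (mem_filter.1 hq).1).1
          have := Real.log_nonneg hq'
          positivity
    _ ≤ 3 / 2 * (2 * Real.log 4 * N) := by
        rw [← Finset.mul_sum]; gcongr; exact cheb_half N
    _ ≤ 9 * N := by nlinarith

/-! ### Smooth numbers -/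

/-- the completely multiplicative function `n^(-σ)` -/
noncomputable def pw (σ : ℝ) : ℕ →* ℝ where
  toFun n := (n : ℝ) ^ (-σ)
  map_one' := by simp
  map_mul' a b := by
    push_cast
    exact Real.mul_rpow (Nat.cast_nonneg _) (Nat.cast_nonneg _)

lemma pw_lt {σ : ℝ} (hσ : 0 < σ) {r : ℕ} (hr : r.Prime) : ‖pw σ r‖ < 1 := by
  have h2 : (1 : ℝ) < r := by exact_mod_cast hr.one_lt
  change ‖(r : ℝ) ^ (-σ)‖ < 1
  rw [Real.norm_of_nonneg (by positivity)]
  exact Real.rpow_lt_one_of_one_lt_of_neg h2 (by linarith)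

lemma euler_exp {x : ℝ} (h0 : 0 ≤ x) (h1 : x ≤ 3 / 4) : (1 - x)⁻¹ ≤ Real.exp (4 * x) := by
  have h2 : 0 < 1 - x := by linarith
  have h3 : (1 - x)⁻¹ = x / (1 - x) + 1 := by field_simp; ring
  rw [h3]
  refine (Real.add_one_le_exp _).trans (Real.exp_le_exp.2 ?_)
  rw [div_le_iff₀ h2]; nlinarith

/-- Rankin's bound for the reciprocal powers of smooth numbers -/
lemma rankin (y : ℕ) (F : Finset ℕ) (hF : ∀ m ∈ F, m ≠ 0 ∧ ∀ p, p.Prime → p ∣ m → p ≤ y) :
    ∑ m ∈ F, (m : ℝ) ^ (-(23 / 24) : ℝ) ≤ Real.exp (96 * (y : ℝ) ^ (1 / 24 : ℝ)) := by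
  obtain ⟨hs, hh⟩ := EulerProduct.summable_and_hasSum_smoothNumbers_prod_primesBelow_geometric
    (f := pw (23 / 24)) (fun {r} hr => pw_lt (by norm_num) hr) (y + 1)
  have h1 : HasSum ((Nat.smoothNumbers (y + 1)).indicator (fun n : ℕ => (n : ℝ) ^ (-(23 / 24) : ℝ)))
      (∏ p ∈ Nat.primesBelow (y + 1), (1 - pw (23 / 24) p)⁻¹) := by
    rw [← hasSum_subtype_iff_indicator]; exact hh
  have h2 := sum_le_hasSum F (fun n _ => Set.indicator_nonneg (fun n _ => by positivity) n) h1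
  have h3 : ∑ m ∈ F, (Nat.smoothNumbers (y + 1)).indicator (fun n : ℕ => (n : ℝ) ^ (-(23 / 24) : ℝ)) m =
      ∑ m ∈ F, (m : ℝ) ^ (-(23 / 24) : ℝ) := by
    refine Finset.sum_congr rfl fun m hm => ?_
    rw [Set.indicator_of_mem]
    rw [Nat.mem_smoothNumbers']
    intro p hp hpm
    have := (hF m hm).2 p hp hpm
    omega
  rw [h3] at h2
  refine h2.trans ?_
  have h4 : ∀ p ∈ Nat.primesBelow (y + 1), (1 - pw (23 / 24) p)⁻¹ ≤
      Real.exp (4 * (p : ℝ) ^ (-(23 / 24) : ℝ)) := by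
    intro p hp
    have hp2 : (2 : ℝ) ≤ p := by exact_mod_cast (Nat.prime_of_mem_primesBelow hp).two_le
    change (1 - (p : ℝ) ^ (-(23 / 24) : ℝ))⁻¹ ≤ _
    refine euler_exp (by positivity) ?_
    calc (p : ℝ) ^ (-(23 / 24) : ℝ) ≤ (2 : ℝ) ^ (-(23 / 24) : ℝ) :=
          Real.rpow_le_rpow_of_nonpos (by norm_num) hp2 (by norm_num)
      _ ≤ (2 : ℝ) ^ (-(1 / 2) : ℝ) := Real.rpow_le_rpow_of_exponent_le (by norm_num) (by norm_num)
      _ ≤ 3 / 4 := by
          rw [Real.rpow_neg (by norm_num), ← Real.sqrt_eq_rpow]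
          have : (4 / 3 : ℝ) ≤ √2 := by
            rw [show (4 / 3 : ℝ) = √((4 / 3) ^ 2) by rw [Real.sqrt_sq (by norm_num)]]
            exact Real.sqrt_le_sqrt (by norm_num)
          rw [inv_le_comm₀ (by positivity) (by norm_num)]
          linarith
  calc ∏ p ∈ Nat.primesBelow (y + 1), (1 - pw (23 / 24) p)⁻¹
      ≤ ∏ p ∈ Nat.primesBelow (y + 1), Real.exp (4 * (p : ℝ) ^ (-(23 / 24) : ℝ)) := by
        refine Finset.prod_le_prod (fun p hp => ?_) h4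
        have := pw_lt (σ := 23 / 24) (by norm_num) (Nat.prime_of_mem_primesBelow hp)
        have h5 := (abs_lt.1 this).2
        exact inv_nonneg.2 (by linarith)
    _ = Real.exp (4 * ∑ p ∈ Nat.primesBelow (y + 1), (p : ℝ) ^ (-(23 / 24) : ℝ)) := by
        rw [← Real.exp_sum, Finset.mul_sum]
    _ ≤ Real.exp (4 * ((y : ℝ) ^ (1 / 24 : ℝ) / (1 / 24))) := by
        apply Real.exp_le_exp.2
        gcongr
        have h6 := sum_rpow (1 / 24) (by norm_num) (by norm_num) y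
        rw [show (1 / 24 : ℝ) - 1 = -(23 / 24) by norm_num] at h6
        refine le_trans (Finset.sum_le_sum_of_subset_of_nonneg ?_ fun _ _ _ => by positivity) h6
        intro p hp
        have h7 := Nat.prime_of_mem_primesBelow hp
        have h8 := Nat.lt_of_mem_primesBelow hp
        rw [mem_Icc]
        exact ⟨h7.one_lt.le, by omega⟩
    _ = Real.exp (96 * (y : ℝ) ^ (1 / 24 : ℝ)) := by congr 1; ring

/-- the numbers up to `N` with all prime factors at most `(log N)^12` -/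
noncomputable def SmF (N : ℕ) : Finset ℕ := by
  classical
  exact (Icc 1 N).filter fun m => ∀ p, p.Prime → p ∣ m → (p : ℝ) ≤ Real.log N ^ 12

lemma smooth_count : ∃ C : ℝ, 0 < C ∧ ∀ N : ℕ, 2 ≤ N → ((SmF N).card : ℝ) ≤ C * N / Real.log N := by
  classical
  refine ⟨48 * Real.exp 110592, by positivity, fun N hN => ?_⟩
  have hN1 : (1 : ℝ) < N := by exact_mod_cast hN
  have hN0 : (0 : ℝ) < N := by linarith
  set L := Real.log N with hL
  have hL0 : 0 < L := Real.log_pos hN1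
  set y : ℕ := ⌊L ^ 12⌋₊ with hy
  have h1 : ∀ m ∈ SmF N, m ≠ 0 ∧ ∀ p, p.Prime → p ∣ m → p ≤ y := by
    intro m hm
    unfold SmF at hm
    rw [mem_filter, mem_Icc] at hm
    refine ⟨by omega, fun p hp hpm => ?_⟩
    exact Nat.le_floor (hm.2 p hp hpm)
  have h2 := rankin y (SmF N) h1
  have h3 : ((SmF N).card : ℝ) ≤ (N : ℝ) ^ (23 / 24 : ℝ) * ∑ m ∈ SmF N, (m : ℝ) ^ (-(23 / 24) : ℝ) := by
    rw [Finset.mul_sum, Finset.card_eq_sum_ones]
    push_cast
    refine Finset.sum_le_sum fun m hm => ?_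
    unfold SmF at hm
    rw [mem_filter, mem_Icc] at hm
    have hm0 : (0 : ℝ) < m := by exact_mod_cast hm.1.1
    have hmN : (m : ℝ) ≤ N := by exact_mod_cast hm.1.2
    rw [Real.rpow_neg hm0.le, ← div_eq_mul_inv, le_div_iff₀ (by positivity), one_mul]
    gcongr
  have h4 : (y : ℝ) ^ (1 / 24 : ℝ) ≤ √L := by
    calc (y : ℝ) ^ (1 / 24 : ℝ) ≤ (L ^ 12) ^ (1 / 24 : ℝ) := by
          gcongr; exact Nat.floor_le (by positivity)
      _ = √L := by
          rw [← Real.rpow_natCast, ← Real.rpow_mul hL0.le, Real.sqrt_eq_rpow]; norm_num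
  have h5 : 96 * √L ≤ L / 48 + 110592 := by
    have e := Real.sq_sqrt hL0.le
    nlinarith [sq_nonneg (√L / 48 * 1 - 48), sq_nonneg (√L - 48 * 48)]
  have h6 : L ≤ 48 * Real.exp (L / 48) := by
    have := Real.add_one_le_exp (L / 48); linarith
  have h7 : (N : ℝ) ^ (23 / 24 : ℝ) = N * Real.exp (-(L / 24)) := by
    have e : (N : ℝ) = Real.exp L := (Real.exp_log hN0).symm
    rw [Real.rpow_def_of_pos hN0, ← hL]
    rw [e, ← Real.exp_add]; congr 1; ring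
  rw [le_div_iff₀ hL0]
  calc ((SmF N).card : ℝ) * L ≤ ((N : ℝ) ^ (23 / 24 : ℝ) * Real.exp (96 * √L)) * L := by
        gcongr
        refine h3.trans (mul_le_mul_of_nonneg_left (h2.trans ?_) (by positivity))
        exact Real.exp_le_exp.2 (by gcongr)
    _ ≤ ((N * Real.exp (-(L / 24))) * Real.exp (L / 48 + 110592)) * (48 * Real.exp (L / 48)) := by
        rw [h7]
        gcongr
    _ = 48 * Real.exp 110592 * N * (Real.exp (-(L / 24)) * Real.exp (L / 48) * Real.exp (L / 48)) := by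
        rw [Real.exp_add]; ring
    _ = 48 * Real.exp 110592 * N := by
        rw [← Real.exp_add, ← Real.exp_add]
        rw [show -(L / 24) + L / 48 + L / 48 = 0 by ring, Real.exp_zero, mul_one]

end Pool.Agent.H25G
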