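import Pool.Agent.H25G.Det

set_option autoImplicit false
set_option linter.unusedSectionVars false

/-!
H25G (helper25): probability of a bad scale, Borel-Cantelli, and all scales.
-/

namespace Pool.Agent.H25G

open Finset MeasureTheory ProbabilityTheory Filter

variable {Ω : Type*} [MeasurableSpace Ω] {μ : Measure Ω} [IsProbabilityMeasure μ] {z : ℕ → Ω → ℂ}

/-- the bad event at the scale `N` -/
def Bd (b : ℕ → ℂ) (σ : ℕ → ℕ × ℕ) (z : ℕ → Ω → ℂ) (N : ℕ) : Set Ω :=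
  {ω | N / Real.log N ^ 3 ≤ OFF b σ (vv N 1) (Q1 N) N (M1 N) (fun p => z p ω)} ∪
  {ω | N / Real.log N ≤ OFF b σ (vv N (1 / 2)) (Q2 N) N (M2 N) (fun p => z p ω)}

lemma bad_prob (hz : Stein μ z) (b : ℕ → ℂ) (hb : ∀ m, ‖b m‖ ≤ 1) (σ : ℕ → ℕ × ℕ)
    (hσ : ∀ m, b m ≠ 0 → (σ m).1 ≠ 0 ∧ (σ m).2 ≠ 0) (D : ℕ) (hD1 : 1 ≤ D) (hH : Few b σ D)
    (N : ℕ) (hN : 2 ≤ N) : μ.real (Bd b σ z N) ≤ D * 10 ^ 6 / Real.log N ^ 3 := by
  have hN1 : (1 : ℝ) < N := by exact_mod_cast hN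
  have hN0 : (0 : ℝ) < N := by linarith
  set L := Real.log N with hL
  have hL0 : 0 < L := Real.log_pos hN1
  have hv1 : ∀ a : ℝ, ∀ q, 0 ≤ vv N a q := fun a q => by unfold vv; positivity
  have m1 := OFF_mean hz b hb σ hσ D hD1 hH 1 (1 / 4) (by norm_num) (by norm_num) (by norm_num) (by norm_num)
    (Q1 N) (fun q hq => by unfold Q1 at hq; exact (mem_Icc.1 (mem_filter.1 hq).1).1) N (M1 N) (by omega)
  have m2 := OFF_mean hz b hb σ hσ D hD1 hH (1 / 2) (1 / 2) (by norm_num) (by norm_num) (by norm_num)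
    (by norm_num) (Q2 N) (fun q hq => by unfold Q2 at hq; exact (mem_Icc.1 (mem_filter.1 hq).1).1) N
    (M2 N) (by omega)
  have m1' : (N : ℝ) ^ (1 / 2 : ℝ) * ((M1 N : ℝ) ^ (1 / 4 : ℝ) / (1 / 4)) ^ 2 ≤ 16 * N / L ^ 6 := by
    have h1 : (M1 N : ℝ) ≤ N / L ^ 12 := Nat.floor_le (by positivity)
    have h2 : ((M1 N : ℝ) ^ (1 / 4 : ℝ) / (1 / 4)) ^ 2 = 16 * (M1 N : ℝ) ^ (1 / 2 : ℝ) := by
      rw [div_pow, ← Real.rpow_natCast ((M1 N : ℝ) ^ (1 / 4 : ℝ)) 2, ← Real.rpow_mul (Nat.cast_nonneg _)]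
      norm_num
      ring
    rw [h2]
    have h3 : (M1 N : ℝ) ^ (1 / 2 : ℝ) ≤ (N : ℝ) ^ (1 / 2 : ℝ) / L ^ 6 := by
      calc (M1 N : ℝ) ^ (1 / 2 : ℝ) ≤ (N / L ^ 12) ^ (1 / 2 : ℝ) := by gcongr
        _ = (N : ℝ) ^ (1 / 2 : ℝ) / L ^ 6 := by
            rw [Real.div_rpow hN0.le (by positivity), ← Real.rpow_natCast L 12, ← Real.rpow_mul hL0.le,
              ← Real.rpow_natCast L 6]
            norm_num
    calc (N : ℝ) ^ (1 / 2 : ℝ) * (16 * (M1 N : ℝ) ^ (1 / 2 : ℝ))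
        ≤ (N : ℝ) ^ (1 / 2 : ℝ) * (16 * ((N : ℝ) ^ (1 / 2 : ℝ) / L ^ 6)) := by gcongr
      _ = 16 * ((N : ℝ) ^ (1 / 2 : ℝ) * (N : ℝ) ^ (1 / 2 : ℝ)) / L ^ 6 := by ring
      _ = 16 * N / L ^ 6 := by rw [← Real.rpow_add hN0]; norm_num
  have m2' : (N : ℝ) ^ (1 / 2 : ℝ) * ((M2 N : ℝ) ^ (1 / 2 : ℝ) / (1 / 2)) ^ 2 ≤
      124416 * N / L ^ 4 := by
    have h1 : (M2 N : ℝ) ≤ (N : ℝ) ^ (1 / 3 : ℝ) := Nat.floor_le (by positivity)
    have h2 : ((M2 N : ℝ) ^ (1 / 2 : ℝ) / (1 / 2)) ^ 2 = 4 * (M2 N : ℝ) := by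
      rw [div_pow, ← Real.rpow_natCast ((M2 N : ℝ) ^ (1 / 2 : ℝ)) 2, ← Real.rpow_mul (Nat.cast_nonneg _)]
      norm_num
      ring
    have h3 : (N : ℝ) = Real.exp L := (Real.exp_log hN0).symm
    have h4 : L ^ 4 ≤ 31104 * Real.exp (L / 6) := by
      have := Real.pow_div_factorial_le_exp (L / 6) (by positivity) 4
      norm_num [Nat.factorial] at this
      rw [div_pow] at this
      norm_num at this
      linarith
    rw [h2, le_div_iff₀ (by positivity)]
    calc (N : ℝ) ^ (1 / 2 : ℝ) * (4 * (M2 N : ℝ)) * L ^ 4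
        ≤ (N : ℝ) ^ (1 / 2 : ℝ) * (4 * (N : ℝ) ^ (1 / 3 : ℝ)) * (31104 * Real.exp (L / 6)) := by gcongr
      _ = 124416 * ((N : ℝ) ^ (1 / 2 : ℝ) * (N : ℝ) ^ (1 / 3 : ℝ) * Real.exp (L / 6)) := by ring
      _ = 124416 * N := by
          rw [← Real.rpow_add hN0, Real.rpow_def_of_pos hN0, ← hL, ← Real.exp_add]
          rw [show L * (1 / 2 + 1 / 3) + L / 6 = L by ring, ← h3]
  have k1 := mul_meas_ge_le_integral_of_nonneg (μ := μ)
    (f := fun ω => OFF b σ (vv N 1) (Q1 N) N (M1 N) (fun p => z p ω))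
    (ae_of_all _ fun ω => OFF_nonneg b σ _ _ _ _ _) (OFF_int hz b hb σ _ (hv1 1) (Q1 N) N (M1 N))
    (N / L ^ 3)
  have k2 := mul_meas_ge_le_integral_of_nonneg (μ := μ)
    (f := fun ω => OFF b σ (vv N (1 / 2)) (Q2 N) N (M2 N) (fun p => z p ω))
    (ae_of_all _ fun ω => OFF_nonneg b σ _ _ _ _ _) (OFF_int hz b hb σ _ (hv1 (1 / 2)) (Q2 N) N (M2 N))
    (N / L)
  have p1 : μ.real {ω | N / L ^ 3 ≤ OFF b σ (vv N 1) (Q1 N) N (M1 N) (fun p => z p ω)} ≤
      D * (16 / L ^ 3) := by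
    have h := k1.trans (m1.trans (mul_le_mul_of_nonneg_left m1' (Nat.cast_nonneg D)))
    have e : (D : ℝ) * (16 * N / L ^ 6) = (N / L ^ 3) * (D * (16 / L ^ 3)) := by field_simp
    rw [e] at h
    exact le_of_mul_le_mul_left h (by positivity)
  have p2 : μ.real {ω | N / L ≤ OFF b σ (vv N (1 / 2)) (Q2 N) N (M2 N) (fun p => z p ω)} ≤
      D * (124416 / L ^ 3) := by
    have h := k2.trans (m2.trans (mul_le_mul_of_nonneg_left m2' (Nat.cast_nonneg D)))
    have e : (D : ℝ) * (124416 * N / L ^ 4) = (N / L) * (D * (124416 / L ^ 3)) := by field_simp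
    rw [e] at h
    exact le_of_mul_le_mul_left h (by positivity)
  unfold Bd
  rw [← hL]
  calc _ ≤ _ := measureReal_union_le _ _
    _ ≤ D * (16 / L ^ 3) + D * (124416 / L ^ 3) := add_le_add p1 p2
    _ = D * 124432 / L ^ 3 := by ring
    _ ≤ D * 10 ^ 6 / L ^ 3 := by gcongr; norm_num

/-- the scales -/
noncomputable def sc (j : ℕ) : ℕ := ⌈Real.exp (√((j : ℝ) + 1))⌉₊

lemma sc_ge (j : ℕ) : Real.exp (√((j : ℝ) + 1)) ≤ sc j := Nat.le_ceil _

lemma sq_one (j : ℕ) : 1 ≤ √((j : ℝ) + 1) := by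
  rw [show (1 : ℝ) = √1 by simp]
  exact Real.sqrt_le_sqrt (by simp)

lemma sc_two (j : ℕ) : 2 ≤ sc j := by
  have h1 := sc_ge j
  have h2 : (2 : ℝ) ≤ Real.exp (√((j : ℝ) + 1)) := by
    have := Real.add_one_le_exp (√((j : ℝ) + 1)); linarith [sq_one j]
  exact_mod_cast h2.trans h1

lemma sc_log (j : ℕ) : √((j : ℝ) + 1) ≤ Real.log (sc j) := by
  rw [← Real.log_exp (√((j : ℝ) + 1))]
  exact Real.log_le_log (Real.exp_pos _) (sc_ge j)

/-- Borel-Cantelli -/
lemma bc (hz : Stein μ z) (b : ℕ → ℂ) (hb : ∀ m, ‖b m‖ ≤ 1) (σ : ℕ → ℕ × ℕ)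
    (hσ : ∀ m, b m ≠ 0 → (σ m).1 ≠ 0 ∧ (σ m).2 ≠ 0) (D : ℕ) (hD1 : 1 ≤ D) (hH : Few b σ D) :
    ∀ᵐ ω ∂μ, ∀ᶠ j in atTop, ω ∉ Bd b σ z (sc j) := by
  apply ae_eventually_notMem
  have h1 : ∀ j : ℕ, μ (Bd b σ z (sc j)) ≤ ENNReal.ofReal (D * 10 ^ 6 * ((j : ℝ) + 1) ^ (-(3 / 2) : ℝ)) := by
    intro j
    rw [← ofReal_measureReal]
    apply ENNReal.ofReal_le_ofReal
    refine (bad_prob hz b hb σ hσ D hD1 hH (sc j) (sc_two j)).trans ?_
    have h2 := sc_log j
    have h3 := sq_one j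
    have h4 : √((j : ℝ) + 1) ^ 3 = ((j : ℝ) + 1) ^ (3 / 2 : ℝ) := by
      rw [Real.sqrt_eq_rpow, ← Real.rpow_natCast, ← Real.rpow_mul (by positivity)]
      norm_num
    rw [Real.rpow_neg (by positivity), ← div_eq_mul_inv, ← h4]
    gcongr
  have hs : Summable fun j : ℕ => D * 10 ^ 6 * ((j : ℝ) + 1) ^ (-(3 / 2) : ℝ) := by
    apply Summable.mul_left
    have := (summable_nat_add_iff 1).2 (Real.summable_nat_rpow.2 (show (-(3 / 2) : ℝ) < -1 by norm_num))
    refine this.congr fun j => ?_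
    push_cast; rfl
  exact ne_top_of_le_ne_top hs.tsum_ofReal_ne_top (ENNReal.tsum_le_tsum h1)

lemma sc_tendsto : Tendsto sc atTop atTop := by
  unfold sc
  refine tendsto_nat_ceil_atTop.comp (Real.tendsto_exp_atTop.comp (Real.tendsto_sqrt_atTop.comp ?_))
  exact tendsto_atTop_add_const_right _ _ tendsto_natCast_atTop_atTop

/-- all scales -/
lemma all_scales (hz : Stein μ z) (b : ℕ → ℂ) (hb : ∀ m, ‖b m‖ ≤ 1) (σ : ℕ → ℕ × ℕ)
    (hσ : ∀ m, b m ≠ 0 → (σ m).1 ≠ 0 ∧ (σ m).2 ≠ 0) (D : ℕ) (hD1 : 1 ≤ D) (hH : Few b σ D) :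
    ∀ᵐ ω ∂μ, ∃ C : ℝ, 0 < C ∧ ∀ N : ℕ, 2 ≤ N → ∀ F : ℕ → ℂ, IsM F → (∀ k, ‖F k‖ ≤ 1) →
      ‖∑ m ∈ Icc 1 N, AA b σ (fun p => z p ω) m * F m‖ ≤ C * N / Real.log N := by
  filter_upwards [bc hz b hb σ hσ D hD1 hH] with ω hω
  have hz1 : ∀ p, ‖z p ω‖ = 1 := fun p => hz.norm_one p ω
  obtain ⟨C, hC, hg⟩ := good_scale b hb σ (fun p => z p ω) hz1
  obtain ⟨j₀, hj₀⟩ := eventually_atTop.1 hω
  have hterm : ∀ (F : ℕ → ℂ), (∀ k, ‖F k‖ ≤ 1) → ∀ m, ‖AA b σ (fun p => z p ω) m * F m‖ ≤ 1 := by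
    intro F hF m
    rw [norm_mul]
    have h1 := AA_norm b hb σ (fun p => z p ω) hz1 m
    have h2 := hF m
    have := norm_nonneg (AA b σ (fun p => z p ω) m)
    have := norm_nonneg (F m)
    nlinarith
  have hlj : 0 < Real.log (sc j₀) := Real.log_pos (by exact_mod_cast sc_two j₀)
  refine ⟨3 * C + 6 + Real.log (sc j₀), by positivity, fun N hN F hFm hF => ?_⟩
  have hN1 : (1 : ℝ) < N := by exact_mod_cast hN
  have hN0 : (0 : ℝ) < N := by linarith
  set L := Real.log N with hL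
  have hL0 : 0 < L := Real.log_pos hN1
  rcases lt_or_ge N (sc j₀) with hlt | hge
  · -- small scales
    have h1 : ‖∑ m ∈ Icc 1 N, AA b σ (fun p => z p ω) m * F m‖ ≤ N := by
      calc _ ≤ ∑ m ∈ Icc 1 N, (1 : ℝ) := norm_sum_le_of_le _ fun m _ => hterm F hF m
        _ = N := by simp
    refine h1.trans ?_
    rw [le_div_iff₀ hL0]
    have h2 : L ≤ Real.log (sc j₀) := Real.log_le_log hN0 (by exact_mod_cast hlt.le)
    nlinarith
  · -- choose the scale
    have hex : ∃ j, j₀ ≤ j ∧ N < sc (j + 1) := by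
      have h1 := (tendsto_atTop.1 (sc_tendsto.comp (tendsto_add_atTop_nat 1)) (N + 1)).and
        (eventually_ge_atTop j₀)
      obtain ⟨j, hj1, hj2⟩ := h1.exists
      exact ⟨j, hj2, hj1⟩
    classical
    obtain ⟨hj1, hj2⟩ := Nat.find_spec hex
    set j := Nat.find hex with hjdef
    have hj3 : sc j ≤ N := by
      rcases eq_or_lt_of_le hj1 with h | h
      · rw [← h]; exact hge
      · by_contra hcon
        rw [not_le] at hcon
        have h4 := Nat.find_min hex (m := j - 1) (by omega)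
        apply h4
        refine ⟨by omega, ?_⟩
        rw [show j - 1 + 1 = j by omega]
        exact hcon
    have hgood := hj₀ j hj1
    unfold Bd at hgood
    simp only [Set.mem_union, Set.mem_ofPred_eq, not_or, not_le] at hgood
    have hb1 := hg (sc j) (sc_two j) hgood.1.le hgood.2.le F hFm hF
    set s := √((j : ℝ) + 1) with hs
    set s' := √(((j + 1 : ℕ) : ℝ) + 1) with hs'
    have hs1 : 1 ≤ s := sq_one j
    have hss : s ≤ s' := Real.sqrt_le_sqrt (by push_cast; linarith)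
    have hsq : s' ^ 2 - s ^ 2 = 1 := by
      rw [hs, hs', Real.sq_sqrt (by positivity), Real.sq_sqrt (by positivity)]; push_cast; ring
    have hd : s' - s ≤ 1 / (2 * s) := by
      rw [le_div_iff₀ (by positivity)]
      nlinarith
    have hd2 : s' - s ≤ 1 / 2 := hd.trans (by
      rw [div_le_div_iff₀ (by positivity) (by norm_num)]; linarith)
    have he1 : Real.exp s ≤ sc j := sc_ge j
    have he2 : (sc (j + 1) : ℝ) ≤ Real.exp s' + 1 := (Nat.ceil_lt_add_one (Real.exp_pos _).le).le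
    have he3 : Real.exp s' ≤ 2 * Real.exp s := by
      have h5 : Real.exp s' = Real.exp s * Real.exp (s' - s) := by rw [← Real.exp_add]; congr 1; ring
      have h6 : Real.exp (s' - s) ≤ 2 := by
        have h7 : Real.exp (s' - s) ≤ Real.exp (1 / 2) := Real.exp_le_exp.2 hd2
        have h8 : Real.exp (1 / 2) ≤ 2 := by
          have h9 : Real.exp (1 / 2) ^ 2 = Real.exp 1 := by rw [← Real.exp_nat_mul]; norm_num
          have h10 := Real.exp_one_lt_d9
          have h11 := Real.exp_pos (1 / 2)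
          nlinarith
        linarith
      rw [h5]
      have := Real.exp_pos s
      nlinarith
    have he4 : Real.exp s' - Real.exp s ≤ (s' - s) * Real.exp s' := by
      have h5 : Real.exp s = Real.exp s' * Real.exp (-(s' - s)) := by rw [← Real.exp_add]; congr 1; ring
      have h6 := Real.add_one_le_exp (-(s' - s))
      have := Real.exp_pos s'
      nlinarith
    have hdiff : (N : ℝ) - sc j ≤ 2 * (N / s) := by
      have h5 : (N : ℝ) ≤ sc (j + 1) := by exact_mod_cast hj2.le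
      have h6 : (s' - s) * Real.exp s' ≤ Real.exp s / s := by
        calc (s' - s) * Real.exp s' ≤ 1 / (2 * s) * (2 * Real.exp s) := by
              apply mul_le_mul hd he3 (Real.exp_pos _).le (by positivity)
          _ = Real.exp s / s := by field_simp
      have h7 : 1 ≤ Real.exp s / s := by
        rw [le_div_iff₀ (by linarith)]
        have := Real.add_one_le_exp s
        linarith
      have h8 : Real.exp s / s ≤ N / s := by
        have : Real.exp s ≤ N := he1.trans (by exact_mod_cast hj3)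
        gcongr
      linarith
    have hLs : L ≤ 3 * s := by
      have h5 : (N : ℝ) ≤ Real.exp (s' + 1) := by
        have h6 : (N : ℝ) ≤ sc (j + 1) := by exact_mod_cast hj2.le
        have h7 : Real.exp (s' + 1) = Real.exp s' * Real.exp 1 := Real.exp_add _ _
        have h8 := Real.add_one_le_exp (1 : ℝ)
        have h9 : 1 ≤ Real.exp s' := Real.one_le_exp (by linarith)
        nlinarith
      have h6 := Real.log_le_log hN0 h5
      rw [Real.log_exp] at h6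
      linarith
    have hsinv : 1 / s ≤ 3 / L := by
      rw [div_le_div_iff₀ (by linarith) hL0]; linarith
    have hsplit : ∑ m ∈ Icc 1 N, AA b σ (fun p => z p ω) m * F m =
        ∑ m ∈ Icc 1 (sc j), AA b σ (fun p => z p ω) m * F m +
          ∑ m ∈ Ioc (sc j) N, AA b σ (fun p => z p ω) m * F m := by
      rw [← Finset.sum_union]
      · congr 1
        ext m
        simp only [mem_Icc, mem_union, mem_Ioc]
        omega
      · rw [Finset.disjoint_left]
        intro m h1 h2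
        rw [mem_Icc] at h1
        rw [mem_Ioc] at h2
        omega
    have h2 : ‖∑ m ∈ Ioc (sc j) N, AA b σ (fun p => z p ω) m * F m‖ ≤ (N : ℝ) - sc j := by
      calc _ ≤ ∑ m ∈ Ioc (sc j) N, (1 : ℝ) := norm_sum_le_of_le _ fun m _ => hterm F hF m
        _ = (N : ℝ) - sc j := by
            rw [Finset.sum_const, Nat.card_Ioc, nsmul_eq_mul, mul_one, Nat.cast_sub hj3]
    have h3 : C * (sc j : ℝ) / Real.log (sc j) ≤ 3 * C * (N / L) := by
      have h4 : s ≤ Real.log (sc j) := sc_log j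
      have h5 : (sc j : ℝ) ≤ N := by exact_mod_cast hj3
      calc C * (sc j : ℝ) / Real.log (sc j) ≤ C * N / s := by
            have : 0 < s := by linarith
            gcongr
        _ = C * N * (1 / s) := by ring
        _ ≤ C * N * (3 / L) := by gcongr
        _ = 3 * C * (N / L) := by ring
    have h4 : 2 * (N / s) ≤ 6 * (N / L) := by
      calc 2 * (N / s) = 2 * N * (1 / s) := by ring
        _ ≤ 2 * N * (3 / L) := by gcongr
        _ = 6 * (N / L) := by ring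
    rw [hsplit]
    calc _ ≤ _ := norm_add_le _ _
      _ ≤ 3 * C * (N / L) + 6 * (N / L) := add_le_add (hb1.trans h3) (h2.trans (hdiff.trans h4))
      _ ≤ 3 * C * (N / L) + 6 * (N / L) + Real.log (sc j₀) * (N / L) := by
          have : 0 ≤ Real.log (sc j₀) * (N / L) := by positivity
          linarith
      _ = (3 * C + 6 + Real.log (sc j₀)) * N / L := by ring

end Pool.Agent.H25G
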