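import Pool.Agent.H25G.Off

set_option autoImplicit false
set_option linter.unusedSectionVars false

/-!
H25G (helper25): decomposition by the largest prime factor, and the bound at a good scale.
-/

namespace Pool.Agent.H25G

open Finset

/-- primes in `((log N)^12, N]` -/
noncomputable def QQ (N : ℕ) : Finset ℕ :=
  (Icc 1 N).filter fun q : ℕ => q.Prime ∧ Real.log N ^ 12 < q

/-- the lower range -/
noncomputable def Q1 (N : ℕ) : Finset ℕ :=
  (Icc 1 N).filter fun q : ℕ => q.Prime ∧ Real.log N ^ 12 < q ∧ (q : ℝ) ≤ (N : ℝ) ^ (2 / 3 : ℝ)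

/-- the upper range -/
noncomputable def Q2 (N : ℕ) : Finset ℕ :=
  (Icc 1 N).filter fun q : ℕ => q.Prime ∧ (N : ℝ) ^ (2 / 3 : ℝ) < q

noncomputable def M1 (N : ℕ) : ℕ := ⌊(N : ℝ) / Real.log N ^ 12⌋₊

noncomputable def M2 (N : ℕ) : ℕ := ⌊(N : ℝ) ^ (1 / 3 : ℝ)⌋₊

/-- multiplicative functions -/
def IsM (F : ℕ → ℂ) : Prop := ∀ m n : ℕ, Nat.Coprime m n → F (m * n) = F m * F n

noncomputable def PP (N : ℕ) : Finset (ℕ × ℕ) := (QQ N ×ˢ Icc 1 N).filter fun p => Sq N p.1 p.2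

noncomputable def Sqr (N : ℕ) : Finset ℕ := (Icc 1 N).filter fun m => ∃ q ∈ QQ N, q ^ 2 ∣ m

lemma PP_inj (N : ℕ) : Set.InjOn (fun p : ℕ × ℕ => p.1 * p.2) (PP N : Set (ℕ × ℕ)) := by
  rintro ⟨q, k⟩ hp ⟨q', k'⟩ hp' h
  simp only at h
  unfold PP QQ at hp hp'
  simp only [coe_filter, mem_product, mem_filter, Set.mem_ofPred_eq] at hp hp'
  have hq := hp.1.1.2.1
  have hq' := hp'.1.1.2.1
  have h1 : q ≤ q' := by
    have : q ∣ q' * k' := h ▸ dvd_mul_right q k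
    rcases hq.dvd_mul.1 this with h2 | h2
    · exact Nat.le_of_dvd hq'.pos h2
    · exact (hp'.2.2.2 q hq h2).le
  have h1' : q' ≤ q := by
    have : q' ∣ q * k := h ▸ dvd_mul_right q' k'
    rcases hq'.dvd_mul.1 this with h2 | h2
    · exact Nat.le_of_dvd hq.pos h2
    · exact (hp.2.2.2 q' hq' h2).le
  have e : q = q' := le_antisymm h1 h1'
  subst e
  have := Nat.eq_of_mul_eq_mul_left hq.pos h
  rw [this]

lemma cover (N m : ℕ) (hm : m ∈ Icc 1 N) (h1 : m ∉ (PP N).image fun p => p.1 * p.2)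
    (h2 : m ∉ SmF N) : m ∈ Sqr N := by
  classical
  have hm' := mem_Icc.1 hm
  unfold SmF at h2
  rw [mem_filter, not_and] at h2
  have h3 := h2 hm
  push Not at h3
  obtain ⟨p, hp, hpm, hpL⟩ := h3
  have hne : m.primeFactors.Nonempty := ⟨p, Nat.mem_primeFactors.2 ⟨hp, hpm, by omega⟩⟩
  obtain ⟨q, hq, hmax⟩ := Finset.exists_max_image m.primeFactors id hne
  simp only [id] at hmax
  have hq' := Nat.mem_primeFactors.1 hq
  have hqp : p ≤ q := hmax p (Nat.mem_primeFactors.2 ⟨hp, hpm, by omega⟩)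
  have hqL : Real.log N ^ 12 < q := by
    have : (p : ℝ) ≤ q := by exact_mod_cast hqp
    linarith
  have hqN : q ≤ N := (Nat.le_of_dvd (by omega) hq'.2.1).trans hm'.2
  have hqQ : q ∈ QQ N := by
    unfold QQ
    rw [mem_filter, mem_Icc]
    exact ⟨⟨hq'.1.one_lt.le, hqN⟩, hq'.1, hqL⟩
  unfold Sqr
  rw [mem_filter]
  refine ⟨hm, q, hqQ, ?_⟩
  obtain ⟨k, hk⟩ := hq'.2.1
  by_contra hcon
  apply h1
  rw [mem_image]
  refine ⟨(q, k), ?_, hk.symm⟩
  have hk0 : 1 ≤ k := by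
    rcases Nat.eq_zero_or_pos k with h0 | h0
    · subst h0; omega
    · exact h0
  have hkN : k ≤ N := by
    have : k ≤ q * k := Nat.le_mul_of_pos_left k hq'.1.pos
    omega
  unfold PP
  rw [mem_filter, mem_product, mem_Icc]
  refine ⟨⟨hqQ, hk0, hkN⟩, hk0, by rw [← hk]; exact hm'.2, ?_⟩
  intro r hr hrk
  have hrm : r ∣ m := by rw [hk]; exact Dvd.dvd.mul_left hrk q
  have h5 := hmax r (Nat.mem_primeFactors.2 ⟨hr, hrm, by omega⟩)
  refine lt_of_le_of_ne h5 fun h6 => ?_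
  subst h6
  apply hcon
  rw [hk, sq]
  exact Nat.mul_dvd_mul_left r hrk

lemma harm (N : ℕ) (hN : 1 ≤ N) : ∑ k ∈ Icc 1 N, ((k : ℝ))⁻¹ ≤ 1 + Real.log N := by
  have h := harmonic_le_one_add_log N
  rw [harmonic_eq_sum_Icc] at h
  push_cast at h
  exact h

lemma Sqr_card (N : ℕ) (hN : 2 ≤ N) :
    ((Sqr N).card : ℝ) ≤ N * (1 + Real.log N) / Real.log N ^ 12 := by
  classical
  have hN1 : (1 : ℝ) < N := by exact_mod_cast hN
  have hL : 0 < Real.log N := Real.log_pos hN1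
  have h1 : Sqr N ⊆ (QQ N).biUnion fun q => (Icc 1 N).filter fun m => q ^ 2 ∣ m := by
    intro m hm
    unfold Sqr at hm
    rw [mem_filter] at hm
    obtain ⟨hm1, q, hq, hqm⟩ := hm
    rw [mem_biUnion]
    exact ⟨q, hq, mem_filter.2 ⟨hm1, hqm⟩⟩
  have h2 : ∀ q ∈ QQ N, (((Icc 1 N).filter fun m => q ^ 2 ∣ m).card : ℝ) ≤
      N / Real.log N ^ 12 * (q : ℝ)⁻¹ := by
    intro q hq
    unfold QQ at hq
    rw [mem_filter, mem_Icc] at hq
    have hq0 : (0 : ℝ) < q := by exact_mod_cast hq.1.1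
    have h3 : ((Icc 1 N).filter fun m => q ^ 2 ∣ m).card = N / q ^ 2 := by
      rw [← Nat.Ioc_filter_dvd_card_eq_div N (q ^ 2)]
      rfl
    rw [h3]
    calc ((N / q ^ 2 : ℕ) : ℝ) ≤ (N : ℝ) / ((q ^ 2 : ℕ) : ℝ) := Nat.cast_div_le
      _ = N / (q : ℝ) * (q : ℝ)⁻¹ := by push_cast; field_simp
      _ ≤ N / Real.log N ^ 12 * (q : ℝ)⁻¹ := by
          have := hq.2.2.le
          gcongr
  calc ((Sqr N).card : ℝ) ≤ ∑ q ∈ QQ N, (((Icc 1 N).filter fun m => q ^ 2 ∣ m).card : ℝ) := by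
        exact_mod_cast (Finset.card_le_card h1).trans Finset.card_biUnion_le
    _ ≤ ∑ q ∈ QQ N, N / Real.log N ^ 12 * (q : ℝ)⁻¹ := Finset.sum_le_sum h2
    _ ≤ ∑ q ∈ Icc 1 N, N / Real.log N ^ 12 * (q : ℝ)⁻¹ :=
        Finset.sum_le_sum_of_subset_of_nonneg (Finset.filter_subset _ _) fun _ _ _ => by positivity
    _ ≤ N / Real.log N ^ 12 * (1 + Real.log N) := by
        rw [← Finset.mul_sum]
        exact mul_le_mul_of_nonneg_left (harm N (by omega)) (by positivity)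
    _ = N * (1 + Real.log N) / Real.log N ^ 12 := by ring

section

variable (b : ℕ → ℂ) (hb : ∀ m, ‖b m‖ ≤ 1) (σ : ℕ → ℕ × ℕ) (z : ℕ → ℂ) (hz : ∀ p, ‖z p‖ = 1)
include hb hz

lemma GS_M0 (F : ℕ → ℂ) (N M M' q : ℕ) (hM : M ≤ M') (h : ∀ k, Sq N q k → k ≤ M) :
    GS b σ z F N M' q = GS b σ z F N M q := by
  unfold GS
  symm
  refine Finset.sum_subset (Finset.Icc_subset_Icc le_rfl hM) fun k hk hk' => ?_
  rw [if_neg]
  intro hs
  exact hk' (mem_Icc.2 ⟨hs.1, h k hs⟩)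

lemma GS_M (F : ℕ → ℂ) (N M q : ℕ) (hq : 1 ≤ q) (h : ∀ k, Sq N q k → k ≤ M) :
    GS b σ z F N N q = GS b σ z F N M q := by
  rw [← GS_M0 b hb σ z hz F N M (M + N) q (by omega) h]
  refine (GS_M0 b hb σ z hz F N N (M + N) q (by omega) fun k hk => ?_).symm
  have := hk.2.1
  have h2 : k ≤ q * k := Nat.le_mul_of_pos_left k hq
  omega

/-- decomposition by the largest prime factor -/
lemma decomp (N : ℕ) (hN : 2 ≤ N) (F : ℕ → ℂ) (hFm : IsM F) (hF : ∀ k, ‖F k‖ ≤ 1) :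
    ‖∑ m ∈ Icc 1 N, AA b σ z m * F m‖ ≤ (SmF N).card + (Sqr N).card +
      ∑ q ∈ QQ N, ‖GS b σ z F N N q‖ := by
  classical
  set Mn := (PP N).image fun p => p.1 * p.2 with hMn
  have hsub : Mn ⊆ Icc 1 N := by
    intro m hm
    rw [hMn, mem_image] at hm
    obtain ⟨⟨q, k⟩, hp, rfl⟩ := hm
    unfold PP at hp
    rw [mem_filter, mem_product] at hp
    have hq : q ∈ QQ N := hp.1.1
    unfold QQ at hq
    rw [mem_filter] at hq
    rw [mem_Icc]
    exact ⟨Nat.mul_pos hq.2.1.pos hp.2.1, hp.2.2.1⟩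
  rw [← Finset.sum_sdiff hsub]
  have hterm : ∀ m, ‖AA b σ z m * F m‖ ≤ 1 := by
    intro m
    rw [norm_mul]
    have h1 := AA_norm b hb σ z hz m
    have h2 := hF m
    have := norm_nonneg (AA b σ z m)
    have := norm_nonneg (F m)
    nlinarith
  have h1 : ‖∑ m ∈ Icc 1 N \ Mn, AA b σ z m * F m‖ ≤ (SmF N).card + (Sqr N).card := by
    have h2 : Icc 1 N \ Mn ⊆ SmF N ∪ Sqr N := by
      intro m hm
      rw [mem_sdiff] at hm
      rw [mem_union]
      by_cases h3 : m ∈ SmF N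
      · exact Or.inl h3
      · exact Or.inr (cover N m hm.1 hm.2 h3)
    calc ‖∑ m ∈ Icc 1 N \ Mn, AA b σ z m * F m‖ ≤ ∑ m ∈ Icc 1 N \ Mn, (1 : ℝ) :=
          norm_sum_le_of_le _ fun m _ => hterm m
      _ = ((Icc 1 N \ Mn).card : ℝ) := by simp
      _ ≤ ((SmF N ∪ Sqr N).card : ℝ) := by exact_mod_cast Finset.card_le_card h2
      _ ≤ (SmF N).card + (Sqr N).card := by exact_mod_cast Finset.card_union_le _ _
  have h2 : ‖∑ m ∈ Mn, AA b σ z m * F m‖ ≤ ∑ q ∈ QQ N, ‖GS b σ z F N N q‖ := by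
    rw [hMn, Finset.sum_image (PP_inj N)]
    unfold PP
    rw [Finset.sum_filter, Finset.sum_product]
    refine norm_sum_le_of_le _ fun q hq => ?_
    unfold QQ at hq
    rw [mem_filter] at hq
    have e : ∑ k ∈ Icc 1 N, (if Sq N q k then AA b σ z (q * k) * F (q * k) else 0) =
        F q * GS b σ z F N N q := by
      unfold GS
      rw [Finset.mul_sum]
      refine Finset.sum_congr rfl fun k _ => ?_
      split_ifs with hs
      · have hcop : Nat.Coprime q k := by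
          rw [hq.2.1.coprime_iff_not_dvd]
          intro hqk
          exact lt_irrefl q (hs.2.2 q hq.2.1 hqk)
        rw [hFm q k hcop]; ring
      · simp
    rw [e, norm_mul]
    have := hF q
    have := norm_nonneg (GS b σ z F N N q)
    nlinarith
  calc _ ≤ ‖∑ m ∈ Icc 1 N \ Mn, AA b σ z m * F m‖ + ‖∑ m ∈ Mn, AA b σ z m * F m‖ := norm_add_le _ _
    _ ≤ _ := add_le_add h1 h2

/-- the bound at a good scale -/
lemma good_scale : ∃ C : ℝ, 0 < C ∧ ∀ (N : ℕ), 2 ≤ N →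
    OFF b σ (vv N 1) (Q1 N) N (M1 N) z ≤ N / Real.log N ^ 3 →
    OFF b σ (vv N (1 / 2)) (Q2 N) N (M2 N) z ≤ N / Real.log N →
    ∀ F : ℕ → ℂ, IsM F → (∀ k, ‖F k‖ ≤ 1) →
    ‖∑ m ∈ Icc 1 N, AA b σ z m * F m‖ ≤ C * N / Real.log N := by
  obtain ⟨CS, hCS, hS⟩ := smooth_count
  refine ⟨CS + 10 ^ 6 + 10 ^ 6 + 10, by positivity, fun N hN hO1 hO2 F hFm hF => ?_⟩
  have hN1 : (1 : ℝ) < N := by exact_mod_cast hN
  have hN0 : (0 : ℝ) < N := by linarith
  set L := Real.log N with hL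
  have hL0 : 0 < L := Real.log_pos hN1
  have hL1 : 0.69 ≤ L := by
    have h1 : Real.log 2 ≤ L := Real.log_le_log (by norm_num) (by exact_mod_cast hN)
    have := Real.log_two_gt_d9
    linarith
  -- polynomial against exponential growth
  have hexp : ∀ (n : ℕ), L ^ n / n.factorial ≤ Real.exp L := fun n => Real.pow_div_factorial_le_exp L hL0.le n
  have hNexp : (N : ℝ) = Real.exp L := (Real.exp_log hN0).symm
  -- squares
  have hsq : ((Sqr N).card : ℝ) ≤ 10 ^ 6 * (N / L) := by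
    refine (Sqr_card N hN).trans ?_
    rw [← hL, ← mul_div_assoc, div_le_div_iff₀ (by positivity) hL0]
    have h2 : (1 + L) * L ≤ 10 ^ 6 * L ^ 12 := by
      have h3 : (0.69 : ℝ) ^ 10 ≤ L ^ 10 := by gcongr
      have h4 : (1 + L) * L ≤ 2.5 * L ^ 2 := by nlinarith
      have h5 : L ^ 12 = L ^ 2 * L ^ 10 := by ring
      have h6 : (0.02 : ℝ) ≤ (0.69 : ℝ) ^ 10 := by norm_num
      have h7 : 0 < L ^ 2 := by positivity
      have h8 : L ^ 2 * 0.02 ≤ L ^ 2 * L ^ 10 := by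
        apply mul_le_mul_of_nonneg_left _ h7.le; linarith
      rw [h5]
      linarith
    calc N * (1 + L) * L = N * ((1 + L) * L) := by ring
      _ ≤ N * (10 ^ 6 * L ^ 12) := by gcongr
      _ = 10 ^ 6 * N * L ^ 12 := by ring
  -- the first range
  have hQ1 : ∀ q ∈ Q1 N, 1 ≤ q ∧ L ^ 12 < q ∧ (q : ℝ) ≤ (N : ℝ) ^ (2 / 3 : ℝ) := by
    intro q hq
    unfold Q1 at hq
    rw [mem_filter] at hq
    exact ⟨(mem_Icc.1 hq.1).1, hq.2.2.1, hq.2.2.2⟩
  have hQ2 : ∀ q ∈ Q2 N, 1 ≤ q ∧ (N : ℝ) ^ (2 / 3 : ℝ) < q := by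
    intro q hq
    unfold Q2 at hq
    rw [mem_filter] at hq
    exact ⟨(mem_Icc.1 hq.1).1, hq.2.2⟩
  have hr1 : ∑ q ∈ Q1 N, ‖GS b σ z F N N q‖ ≤ 10 ^ 6 * (N / L) := by
    have e1 : ∀ q ∈ Q1 N, ‖GS b σ z F N N q‖ = ‖GS b σ z F N (M1 N) q‖ := by
      intro q hq
      obtain ⟨hq1, hq2, -⟩ := hQ1 q hq
      rw [GS_M b hb σ z hz F N (M1 N) q hq1 fun k hk => ?_]
      unfold M1
      apply Nat.le_floor
      have hk1 : (q : ℝ) * k ≤ N := by exact_mod_cast hk.2.1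
      rw [← hL, le_div_iff₀ (by positivity)]
      have hk0 : (0 : ℝ) ≤ k := Nat.cast_nonneg k
      nlinarith
    rw [Finset.sum_congr rfl e1]
    have h1 := GS_sum b hb σ z hz (vv N 1) (fun q hq => by
      have : (0 : ℝ) < q := by exact_mod_cast hq
      unfold vv; positivity) (fun q => by unfold vv; positivity) F hF (Q1 N)
      (fun q hq => (hQ1 q hq).1) N (M1 N)
    have h2 : ∑ q ∈ Q1 N, (vv N 1 q)⁻¹ ≤ N * (1 + L) := by
      calc ∑ q ∈ Q1 N, (vv N 1 q)⁻¹ = ∑ q ∈ Q1 N, N * ((q : ℝ))⁻¹ := by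
            refine Finset.sum_congr rfl fun q _ => ?_
            unfold vv; rw [Real.rpow_one, inv_div, div_eq_mul_inv]
        _ ≤ ∑ q ∈ Icc 1 N, N * ((q : ℝ))⁻¹ :=
            Finset.sum_le_sum_of_subset_of_nonneg (Finset.filter_subset _ _) fun _ _ _ => by positivity
        _ ≤ N * (1 + L) := by
            rw [← Finset.mul_sum]
            exact mul_le_mul_of_nonneg_left (harm N (by omega)) hN0.le
    have h3 : ∑ q ∈ Q1 N, vv N 1 q * ((N : ℝ) / q) ≤ (N : ℝ) ^ (2 / 3 : ℝ) := by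
      calc ∑ q ∈ Q1 N, vv N 1 q * ((N : ℝ) / q) = ∑ q ∈ Q1 N, (1 : ℝ) := by
            refine Finset.sum_congr rfl fun q hq => ?_
            have hq0 : (0 : ℝ) < q := by exact_mod_cast (hQ1 q hq).1
            unfold vv; rw [Real.rpow_one]; field_simp
        _ = ((Q1 N).card : ℝ) := by simp
        _ ≤ ((Icc 1 ⌊(N : ℝ) ^ (2 / 3 : ℝ)⌋₊).card : ℝ) := by
            norm_cast
            apply Finset.card_le_card
            intro q hq
            rw [mem_Icc]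
            exact ⟨(hQ1 q hq).1, Nat.le_floor (hQ1 q hq).2.2⟩
        _ ≤ (N : ℝ) ^ (2 / 3 : ℝ) := by
            rw [Nat.card_Icc, Nat.add_sub_cancel]
            exact Nat.floor_le (by positivity)
    have h4 : (∑ q ∈ Q1 N, ‖GS b σ z F N (M1 N) q‖) ^ 2 ≤ (10 ^ 6 * (N / L)) ^ 2 := by
      have hO0 := OFF_nonneg b σ (vv N 1) (Q1 N) N (M1 N) z
      have h5 : (N : ℝ) ^ (2 / 3 : ℝ) * (1 + L) ≤ 405 * (N / L ^ 2) := by
        have e2 : (N : ℝ) ^ (2 / 3 : ℝ) = N * (N : ℝ) ^ (-(1 / 3) : ℝ) := by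
          nth_rewrite 2 [← Real.rpow_one (N : ℝ)]
          rw [← Real.rpow_add hN0]; norm_num
        have e3 : (N : ℝ) ^ (-(1 / 3) : ℝ) = (Real.exp (L / 3))⁻¹ := by
          rw [Real.rpow_def_of_pos hN0, ← hL, ← Real.exp_neg]; congr 1; ring
        have h6 : (L / 3) ^ 3 / 6 ≤ Real.exp (L / 3) := by
          have := Real.pow_div_factorial_le_exp (L / 3) (by positivity) 3
          norm_num [Nat.factorial] at this ⊢
          exact this
        have h7 : L ^ 2 * (1 + L) ≤ 405 * Real.exp (L / 3) := by nlinarith [sq_nonneg L, mul_pos hL0 hL0]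
        rw [e2, e3]
        rw [← mul_div_assoc, le_div_iff₀ (by positivity)]
        have h8 : 0 < Real.exp (L / 3) := Real.exp_pos _
        calc N * (Real.exp (L / 3))⁻¹ * (1 + L) * L ^ 2
            = N * (Real.exp (L / 3))⁻¹ * (L ^ 2 * (1 + L)) := by ring
          _ ≤ N * (Real.exp (L / 3))⁻¹ * (405 * Real.exp (L / 3)) := by gcongr
          _ = 405 * N := by field_simp
      have h6 : N / L ^ 3 * (1 + L) ≤ 2.5 * (N / L ^ 2) := by
        have e4 : N / L ^ 3 * (1 + L) = N / L ^ 2 * ((1 + L) / L) := by field_simp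
        rw [e4, mul_comm (2.5 : ℝ)]
        apply mul_le_mul_of_nonneg_left _ (by positivity)
        rw [div_le_iff₀ hL0]; linarith
      calc _ ≤ (∑ q ∈ Q1 N, (vv N 1 q)⁻¹) * (∑ q ∈ Q1 N, vv N 1 q * ((N : ℝ) / q) +
              OFF b σ (vv N 1) (Q1 N) N (M1 N) z) := h1
        _ ≤ (N * (1 + L)) * ((N : ℝ) ^ (2 / 3 : ℝ) + N / L ^ 3) := by
            apply mul_le_mul h2 (add_le_add h3 hO1) _ (by positivity)
            apply add_nonneg _ hO0
            exact Finset.sum_nonneg fun q _ => by unfold vv; positivity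
        _ = N * ((N : ℝ) ^ (2 / 3 : ℝ) * (1 + L) + N / L ^ 3 * (1 + L)) := by ring
        _ ≤ N * (405 * (N / L ^ 2) + 2.5 * (N / L ^ 2)) := by gcongr
        _ = 407.5 * (N / L) ^ 2 := by field_simp; ring
        _ ≤ (10 ^ 6 * (N / L)) ^ 2 := by
            rw [mul_pow]
            apply mul_le_mul_of_nonneg_right (by norm_num) (by positivity)
    exact (pow_le_pow_iff_left₀ (Finset.sum_nonneg fun _ _ => norm_nonneg _) (by positivity)
      (by norm_num)).1 h4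
  have hr2 : ∑ q ∈ Q2 N, ‖GS b σ z F N N q‖ ≤ 10 * (N / L) := by
    have e1 : ∀ q ∈ Q2 N, ‖GS b σ z F N N q‖ = ‖GS b σ z F N (M2 N) q‖ := by
      intro q hq
      obtain ⟨hq1, hq2⟩ := hQ2 q hq
      rw [GS_M b hb σ z hz F N (M2 N) q hq1 fun k hk => ?_]
      unfold M2
      apply Nat.le_floor
      have hk1 : (q : ℝ) * k ≤ N := by exact_mod_cast hk.2.1
      have hk0 : (0 : ℝ) ≤ k := Nat.cast_nonneg k
      have h3 : (N : ℝ) ^ (2 / 3 : ℝ) * (N : ℝ) ^ (1 / 3 : ℝ) = N := by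
        rw [← Real.rpow_add hN0]; norm_num
      have h4 : 0 < (N : ℝ) ^ (2 / 3 : ℝ) := by positivity
      have h5 : (N : ℝ) ^ (2 / 3 : ℝ) * k ≤ (N : ℝ) ^ (2 / 3 : ℝ) * (N : ℝ) ^ (1 / 3 : ℝ) := by
        rw [h3]; nlinarith
      exact le_of_mul_le_mul_left h5 h4
    rw [Finset.sum_congr rfl e1]
    have h1 := GS_sum b hb σ z hz (vv N (1 / 2)) (fun q hq => by
      have : (0 : ℝ) < q := by exact_mod_cast hq
      unfold vv; positivity) (fun q => by unfold vv; positivity) F hF (Q2 N)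
      (fun q hq => (hQ2 q hq).1) N (M2 N)
    have hct := cheb_top N hN
    have hct' : ∑ q ∈ Q2 N, ((N : ℝ) / q) ^ (1 / 2 : ℝ) ≤ 9 * (N / L) := by
      unfold Q2
      refine hct.trans (le_of_eq ?_)
      rw [← hL]; ring
    have h2 : ∑ q ∈ Q2 N, (vv N (1 / 2) q)⁻¹ ≤ 9 * (N / L) := by
      refine le_trans (le_of_eq (Finset.sum_congr rfl fun q hq => ?_)) hct'
      unfold vv
      rw [← Real.inv_rpow (by positivity), inv_div]
    have h3 : ∑ q ∈ Q2 N, vv N (1 / 2) q * ((N : ℝ) / q) ≤ 9 * (N / L) := by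
      refine le_trans (le_of_eq (Finset.sum_congr rfl fun q hq => ?_)) hct'
      have hq0 : (0 : ℝ) < q := by exact_mod_cast (hQ2 q hq).1
      have hx : (0 : ℝ) < (N : ℝ) / q := by positivity
      unfold vv
      rw [show (q : ℝ) / N = ((N : ℝ) / q)⁻¹ by rw [inv_div], Real.inv_rpow hx.le]
      have e5 : (N : ℝ) / q = ((N : ℝ) / q) ^ (1 / 2 : ℝ) * ((N : ℝ) / q) ^ (1 / 2 : ℝ) := by
        rw [← Real.rpow_add hx]; norm_num
      have e6 : 0 < ((N : ℝ) / q) ^ (1 / 2 : ℝ) := by positivity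
      nth_rewrite 2 [e5]
      field_simp
    have h4 : (∑ q ∈ Q2 N, ‖GS b σ z F N (M2 N) q‖) ^ 2 ≤ (10 * (N / L)) ^ 2 := by
      have hO0 := OFF_nonneg b σ (vv N (1 / 2)) (Q2 N) N (M2 N) z
      calc _ ≤ (∑ q ∈ Q2 N, (vv N (1 / 2) q)⁻¹) * (∑ q ∈ Q2 N, vv N (1 / 2) q * ((N : ℝ) / q) +
              OFF b σ (vv N (1 / 2)) (Q2 N) N (M2 N) z) := h1
        _ ≤ (9 * (N / L)) * (9 * (N / L) + N / L) := by
            apply mul_le_mul h2 (add_le_add h3 hO2) _ (by positivity)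
            apply add_nonneg _ hO0
            exact Finset.sum_nonneg fun q _ => by unfold vv; positivity
        _ = 90 * (N / L) ^ 2 := by ring
        _ ≤ (10 * (N / L)) ^ 2 := by
            rw [mul_pow]
            apply mul_le_mul_of_nonneg_right (by norm_num) (by positivity)
    exact (pow_le_pow_iff_left₀ (Finset.sum_nonneg fun _ _ => norm_nonneg _) (by positivity)
      (by norm_num)).1 h4
  have hQQ : ∑ q ∈ QQ N, ‖GS b σ z F N N q‖ ≤
      ∑ q ∈ Q1 N, ‖GS b σ z F N N q‖ + ∑ q ∈ Q2 N, ‖GS b σ z F N N q‖ := by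
    rw [← Finset.sum_filter_add_sum_filter_not (QQ N) (fun q : ℕ => (q : ℝ) ≤ (N : ℝ) ^ (2 / 3 : ℝ))]
    refine add_le_add (Finset.sum_le_sum_of_subset_of_nonneg ?_ fun _ _ _ => norm_nonneg _)
      (Finset.sum_le_sum_of_subset_of_nonneg ?_ fun _ _ _ => norm_nonneg _)
    · intro q hq
      unfold QQ at hq
      rw [mem_filter, mem_filter] at hq
      unfold Q1
      rw [mem_filter]
      exact ⟨hq.1.1, hq.1.2.1, hq.1.2.2, hq.2⟩
    · intro q hq
      unfold QQ at hq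
      rw [mem_filter, mem_filter, not_le] at hq
      unfold Q2
      rw [mem_filter]
      exact ⟨hq.1.1, hq.1.2.1, hq.2⟩
  have hd := decomp b hb σ z hz N hN F hFm hF
  have hS' := hS N hN
  rw [← hL, mul_div_assoc] at hS'
  calc _ ≤ (SmF N).card + (Sqr N).card + ∑ q ∈ QQ N, ‖GS b σ z F N N q‖ := hd
    _ ≤ CS * (N / L) + 10 ^ 6 * (N / L) + (10 ^ 6 * (N / L) + 10 * (N / L)) := by
        have := hQQ.trans (add_le_add hr1 hr2)
        linarith
    _ = (CS + 10 ^ 6 + 10 ^ 6 + 10) * N / L := by ring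

end

end Pool.Agent.H25G
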