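import Pool.Agent.H25G.Bc

set_option autoImplicit false
set_option linter.unusedSectionVars false

/-!
H25G (helper25): the space of independent uniform phases; the theorem with shifts.
-/

namespace Pool.Agent.H25G

open Finset MeasureTheory ProbabilityTheory Filter

instance probIcc : IsProbabilityMeasure ((volume : Measure ℝ).restrict (Set.Icc 0 1)) :=
  ⟨by simp⟩

/-- independent phases, uniformly distributed on `[0, 1]` -/
noncomputable def PhP : Measure (ℕ → ℝ) :=
  Measure.infinitePi fun _ => (volume : Measure ℝ).restrict (Set.Icc 0 1)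

instance : IsProbabilityMeasure PhP := by unfold PhP; infer_instance

noncomputable def ph (t : ℝ) : ℂ := Complex.exp (2 * Real.pi * Complex.I * t)

lemma ph_cont : Continuous ph := by unfold ph; fun_prop

lemma ph_int (m : ℕ) (hm : 1 ≤ m) : ∫ t in Set.Icc (0 : ℝ) 1, ph t ^ m = 0 := by
  have hm' : (m : ℂ) ≠ 0 := by exact_mod_cast (by omega : m ≠ 0)
  have hc : (2 * Real.pi * Complex.I * m : ℂ) ≠ 0 := by
    have := Real.pi_ne_zero
    simp [hm', this, Complex.I_ne_zero]
  rw [integral_Icc_eq_integral_Ioc, ← intervalIntegral.integral_of_le (by norm_num)]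
  have e : ∀ t : ℝ, ph t ^ m = Complex.exp ((2 * Real.pi * Complex.I * m : ℂ) * t) := by
    intro t
    unfold ph
    rw [← Complex.exp_nat_mul]; congr 1; ring
  simp_rw [e]
  rw [integral_exp_mul_complex hc]
  have h1 : Complex.exp ((2 * Real.pi * Complex.I * m : ℂ) * ((1 : ℝ) : ℂ)) = 1 := by
    rw [Complex.exp_eq_one_iff]
    exact ⟨m, by push_cast; ring⟩
  rw [h1]; simp

lemma stein : Stein PhP (fun p θ => ph (θ p)) where
  meas p := ph_cont.measurable.comp (measurable_pi_apply p)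
  indep := by
    unfold PhP
    exact iIndepFun_infinitePi (X := fun _ t => ph t) fun _ => ph_cont.measurable
  norm_one p θ := by
    unfold ph
    rw [show (2 * Real.pi * Complex.I * (θ p) : ℂ) = ((2 * Real.pi * θ p : ℝ) : ℂ) * Complex.I by
      push_cast; ring, Complex.norm_exp_ofReal_mul_I]
  mean p m hm := by
    have h1 : MeasurePreserving (fun θ : ℕ → ℝ => θ p) PhP ((volume : Measure ℝ).restrict (Set.Icc 0 1)) := by
      unfold PhP
      exact measurePreserving_eval_infinitePi _ p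
    have h2 : AEStronglyMeasurable (fun t : ℝ => ph t ^ m)
        (PhP.map fun θ : ℕ → ℝ => θ p) := (ph_cont.pow m).aestronglyMeasurable
    have h3 := integral_map (h1.measurable.aemeasurable) h2
    rw [h1.map_eq] at h3
    rw [← ph_int m hm]
    exact h3.symm

/-! ### Coincidences -/

section coin

variable {s : ℕ}

noncomputable def Ph (d : Fin s → ℚ) (p n : Fin s → ℕ) (a b x : ℚ) : ℚ :=
  ∏ i, ((a * x + d i) ^ p i * (b * x + d i) ^ n i)

open Polynomial in
noncomputable def PhX (d : Fin s → ℚ) (p n : Fin s → ℕ) (a b : ℚ) : Polynomial ℚ :=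
  ∏ i, ((C a * X + C (d i)) ^ p i * (C b * X + C (d i)) ^ n i)

lemma PhX_eval (d : Fin s → ℚ) (p n : Fin s → ℕ) (a b x : ℚ) :
    (PhX d p n a b).eval x = Ph d p n a b x := by
  unfold PhX Ph
  rw [Polynomial.eval_prod]
  simp

lemma PhX_deg (d : Fin s → ℚ) (p n : Fin s → ℕ) (a b : ℚ) :
    (PhX d p n a b).natDegree ≤ ∑ i, (p i + n i) := by
  unfold PhX
  refine (Polynomial.natDegree_prod_le _ _).trans (Finset.sum_le_sum fun i _ => ?_)
  refine Polynomial.natDegree_mul_le.trans (add_le_add ?_ ?_)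
  · refine Polynomial.natDegree_pow_le.trans ?_
    have := Polynomial.natDegree_linear_le (a := a) (b := d i)
    nlinarith
  · refine Polynomial.natDegree_pow_le.trans ?_
    have := Polynomial.natDegree_linear_le (a := b) (b := d i)
    nlinarith

/-- at a suitable point exactly one of the two products vanishes -/
lemma Ph_sep (d : Fin s → ℚ) (p n : Fin s → ℕ) (hs : 0 < s) (hd : ∀ i, d i ≠ 0)
    (hdi : Function.Injective d) (hpn : ∀ i, (0 < p i ∧ n i = 0) ∨ (0 < n i ∧ p i = 0))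
    (a b : ℚ) (ha : 0 < a) (hab : a < b) :
    ∃ x, (Ph d p n a b x = 0 ∧ Ph d p n b a x ≠ 0) ∨ (Ph d p n a b x ≠ 0 ∧ Ph d p n b a x = 0) := by
  have : Nonempty (Fin s) := ⟨⟨0, hs⟩⟩
  have hb : 0 < b := ha.trans hab
  obtain ⟨j, -, hj⟩ := Finset.exists_max_image (Finset.univ : Finset (Fin s)) (fun i => |d i|)
    Finset.univ_nonempty
  have h1 : a * (-(d j) / a) + d j = 0 := by field_simp; ring
  have h2 : ∀ i, b * (-(d j) / a) + d i ≠ 0 := by
    intro i h
    have h3 : d i = b / a * d j := by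
      have : d i = -(b * (-(d j) / a)) := by linarith
      rw [this]; ring
    have h4 : |d i| = b / a * |d j| := by rw [h3, abs_mul, abs_of_pos (by positivity)]
    have h5 := hj i (Finset.mem_univ i)
    have h6 : 0 < |d j| := abs_pos.2 (hd j)
    have h7 : 1 < b / a := by rw [lt_div_iff₀ ha]; linarith
    nlinarith
  have h3 : ∀ i, i ≠ j → a * (-(d j) / a) + d i ≠ 0 := by
    intro i hi h
    have : d i = d j := by
      have h4 : a * (-(d j) / a) = - d j := by field_simp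
      rw [h4] at h; linarith
    exact hi (hdi this)
  refine ⟨-(d j) / a, ?_⟩
  rcases hpn j with ⟨hp, hn⟩ | ⟨hn, hp⟩
  · left
    constructor
    · unfold Ph
      refine Finset.prod_eq_zero (Finset.mem_univ j) ?_
      rw [h1, zero_pow hp.ne', zero_mul]
    · unfold Ph
      refine Finset.prod_ne_zero_iff.2 fun i _ => mul_ne_zero (pow_ne_zero _ (h2 i)) ?_
      by_cases hi : i = j
      · rw [hi, hn, pow_zero]; norm_num
      · exact pow_ne_zero _ (h3 i hi)
  · right
    constructor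
    · unfold Ph
      refine Finset.prod_ne_zero_iff.2 fun i _ => mul_ne_zero ?_ (pow_ne_zero _ (h2 i))
      by_cases hi : i = j
      · rw [hi, hp, pow_zero]; norm_num
      · exact pow_ne_zero _ (h3 i hi)
    · unfold Ph
      refine Finset.prod_eq_zero (Finset.mem_univ j) ?_
      rw [h1, zero_pow hn.ne', mul_zero]

/-- few solutions -/
lemma Ph_few (d : Fin s → ℚ) (p n : Fin s → ℕ) (hs : 0 < s) (hd : ∀ i, d i ≠ 0)
    (hdi : Function.Injective d) (hpn : ∀ i, (0 < p i ∧ n i = 0) ∨ (0 < n i ∧ p i = 0))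
    (k l : ℚ) (hk : 0 < k) (hl : 0 < l) (hkl : k ≠ l) (A B : ℚ) (hA : A ≠ 0) (hB : B ≠ 0)
    (T : Finset ℕ) (hT : ∀ q ∈ T, A * Ph d p n l k q = B * Ph d p n k l q) :
    T.card ≤ ∑ i, (p i + n i) := by
  classical
  set G : Polynomial ℚ := Polynomial.C A * PhX d p n l k - Polynomial.C B * PhX d p n k l with hG
  have hev : ∀ x, G.eval x = A * Ph d p n l k x - B * Ph d p n k l x := by
    intro x; rw [hG]; simp [PhX_eval]
  have hG0 : G ≠ 0 := by
    intro h0
    have hz : ∀ x, A * Ph d p n l k x - B * Ph d p n k l x = 0 := by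
      intro x; rw [← hev, h0]; simp
    rcases lt_or_gt_of_ne hkl with h | h
    · obtain ⟨x, hx⟩ := Ph_sep d p n hs hd hdi hpn k l hk h
      have := hz x
      rcases hx with ⟨h1, h2⟩ | ⟨h1, h2⟩
      · rw [h1, mul_zero, sub_zero] at this
        exact mul_ne_zero hA h2 this
      · rw [h2, mul_zero, zero_sub, neg_eq_zero] at this
        exact mul_ne_zero hB h1 this
    · obtain ⟨x, hx⟩ := Ph_sep d p n hs hd hdi hpn l k hl h
      have := hz x
      rcases hx with ⟨h1, h2⟩ | ⟨h1, h2⟩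
      · rw [h1, mul_zero, zero_sub, neg_eq_zero] at this
        exact mul_ne_zero hB h2 this
      · rw [h2, mul_zero, sub_zero] at this
        exact mul_ne_zero hA h1 this
  have hdeg : G.natDegree ≤ ∑ i, (p i + n i) := by
    rw [hG]
    refine (Polynomial.natDegree_sub_le _ _).trans (max_le ?_ ?_)
    · exact (Polynomial.natDegree_C_mul_le _ _).trans (PhX_deg d p n l k)
    · exact (Polynomial.natDegree_C_mul_le _ _).trans (PhX_deg d p n k l)
  have hsub : T.image (fun q : ℕ => (q : ℚ)) ⊆ G.roots.toFinset := by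
    intro x hx
    rw [mem_image] at hx
    obtain ⟨q, hq, rfl⟩ := hx
    rw [Multiset.mem_toFinset, Polynomial.mem_roots hG0, Polynomial.IsRoot.def, hev, hT q hq, sub_self]
  have hcard : (T.image (fun q : ℕ => (q : ℚ))).card = T.card :=
    Finset.card_image_of_injective _ Nat.cast_injective
  calc T.card = (T.image (fun q : ℕ => (q : ℚ))).card := hcard.symm
    _ ≤ G.roots.toFinset.card := Finset.card_le_card hsub
    _ ≤ Multiset.card G.roots := Multiset.toFinset_card_le _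
    _ ≤ G.natDegree := Polynomial.card_roots' G
    _ ≤ _ := hdeg

end coin

/-- the coefficient -/
noncomputable def bb (c : ℕ → ℂ) (h₀ : ℕ) (m : ℕ) : ℂ := if h₀ < m then c (m - h₀) else 0

/-- the arguments -/
def ss {s : ℕ} (h : Fin s → ℕ) (e : Fin s → ℤ) (h₀ m : ℕ) : ℕ × ℕ :=
  (∏ i, (m - h₀ + h i) ^ (e i).toNat, ∏ i, (m - h₀ + h i) ^ (-(e i)).toNat)

lemma bb_ne {c : ℕ → ℂ} {h₀ m : ℕ} (hm : bb c h₀ m ≠ 0) : h₀ < m := by
  by_contra hcon
  apply hm
  unfold bb
  rw [if_neg hcon]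

lemma ss_ne {s : ℕ} (h : Fin s → ℕ) (e : Fin s → ℤ) (c : ℕ → ℂ) (h₀ m : ℕ) (hm : bb c h₀ m ≠ 0) :
    (ss h e h₀ m).1 ≠ 0 ∧ (ss h e h₀ m).2 ≠ 0 := by
  have h1 := bb_ne hm
  unfold ss
  constructor <;>
  · simp only
    refine Finset.prod_ne_zero_iff.2 fun i _ => pow_ne_zero _ ?_
    omega

lemma few_ss {s : ℕ} (h : Fin s → ℕ) (e : Fin s → ℤ) (c : ℕ → ℂ) (h₀ : ℕ) (hs : 0 < s)
    (hinj : Function.Injective h) (hne : ∀ i, h i ≠ h₀) (he : ∀ i, e i ≠ 0) :
    Few (bb c h₀) (ss h e h₀) (∑ i, ((e i).toNat + (-(e i)).toNat)) := by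
  intro k l hkl q S
  set T := S.filter fun q' => Co (bb c h₀) (ss h e h₀) k l q q' with hT
  rcases T.eq_empty_or_nonempty with h0 | ⟨q₀, hq₀⟩
  · rw [h0]; simp
  have hq₀' : Co (bb c h₀) (ss h e h₀) k l q q₀ := (mem_filter.1 hq₀).2
  have c1 := bb_ne hq₀'.1
  have c2 := bb_ne hq₀'.2.1
  have hk : 0 < k := by
    rcases Nat.eq_zero_or_pos k with h1 | h1
    · subst h1; simp at c1
    · exact h1
  have hl : 0 < l := by
    rcases Nat.eq_zero_or_pos l with h1 | h1
    · subst h1; simp at c2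
    · exact h1
  set d : Fin s → ℚ := fun i => (h i : ℚ) - h₀ with hd
  have hcast : ∀ m i, h₀ < m → (((m - h₀ + h i : ℕ) : ℚ)) = m + d i := by
    intro m i hm
    rw [hd]
    push_cast [Nat.cast_sub hm.le]
    ring
  have hpos : ∀ m i, h₀ < m → (m : ℚ) + d i ≠ 0 := by
    intro m i hm
    rw [← hcast m i hm]
    exact_mod_cast (by omega : m - h₀ + h i ≠ 0)
  set p : Fin s → ℕ := fun i => (e i).toNat with hp
  set n : Fin s → ℕ := fun i => (-(e i)).toNat with hn
  set A : ℚ := ∏ i, (((q : ℚ) * k + d i) ^ p i * ((q : ℚ) * l + d i) ^ n i) with hA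
  set B : ℚ := ∏ i, (((q : ℚ) * l + d i) ^ p i * ((q : ℚ) * k + d i) ^ n i) with hB
  have c1' : ∀ i, (q : ℚ) * k + d i ≠ 0 := by
    intro i; have := hpos (q * k) i c1; push_cast at this; exact this
  have c2' : ∀ i, (q : ℚ) * l + d i ≠ 0 := by
    intro i; have := hpos (q * l) i c2; push_cast at this; exact this
  have hA0 : A ≠ 0 := Finset.prod_ne_zero_iff.2 fun i _ =>
    mul_ne_zero (pow_ne_zero _ (c1' i)) (pow_ne_zero _ (c2' i))
  have hB0 : B ≠ 0 := Finset.prod_ne_zero_iff.2 fun i _ =>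
    mul_ne_zero (pow_ne_zero _ (c2' i)) (pow_ne_zero _ (c1' i))
  refine Ph_few d p n hs (fun i => ?_) (fun i j hij => ?_) (fun i => ?_) (k : ℚ) l (by exact_mod_cast hk)
    (by exact_mod_cast hl) (by exact_mod_cast hkl) A B hA0 hB0 T fun q' hq' => ?_
  · rw [hd]
    simp only
    intro h1
    apply hne i
    have : (h i : ℚ) = h₀ := by linarith
    exact_mod_cast this
  · rw [hd] at hij
    simp only at hij
    apply hinj
    have : (h i : ℚ) = h j := by linarith
    exact_mod_cast this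
  · have := he i
    simp only [hp, hn]
    omega
  · obtain ⟨-, -, b3, b4, heq⟩ := (mem_filter.1 hq').2
    have c3 := bb_ne b3
    have c4 := bb_ne b4
    have heq' : (((ss h e h₀ (q * k)).1 : ℕ) : ℚ) * ((ss h e h₀ (q' * l)).1 : ℕ) *
        ((((ss h e h₀ (q * l)).2 : ℕ) : ℚ) * ((ss h e h₀ (q' * k)).2 : ℕ)) =
        (((ss h e h₀ (q * l)).1 : ℕ) : ℚ) * ((ss h e h₀ (q' * k)).1 : ℕ) *
        ((((ss h e h₀ (q * k)).2 : ℕ) : ℚ) * ((ss h e h₀ (q' * l)).2 : ℕ)) := by
      exact_mod_cast heq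
    have e1 : ∀ m, h₀ < m → (((ss h e h₀ m).1 : ℕ) : ℚ) = ∏ i, ((m : ℚ) + d i) ^ p i := by
      intro m hm
      unfold ss
      simp only
      rw [Nat.cast_prod]
      refine Finset.prod_congr rfl fun i _ => ?_
      rw [Nat.cast_pow, hcast m i hm]
    have e2 : ∀ m, h₀ < m → (((ss h e h₀ m).2 : ℕ) : ℚ) = ∏ i, ((m : ℚ) + d i) ^ n i := by
      intro m hm
      unfold ss
      simp only
      rw [Nat.cast_prod]
      refine Finset.prod_congr rfl fun i _ => ?_
      rw [Nat.cast_pow, hcast m i hm]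
    rw [e1 _ c1, e1 _ c2, e1 _ c3, e1 _ c4, e2 _ c1, e2 _ c2, e2 _ c3, e2 _ c4] at heq'
    unfold Ph
    rw [hA, hB]
    simp only [Finset.prod_mul_distrib]
    push_cast at heq'
    have s1 : ∀ i, (l : ℚ) * q' + d i = q' * l + d i := fun i => by ring
    have s2 : ∀ i, (k : ℚ) * q' + d i = q' * k + d i := fun i => by ring
    simp only [s1, s2]
    linear_combination heq'

/-! ### The theorem for given shifts -/

section

variable {Ω : Type*} [MeasurableSpace Ω] {μ : Measure Ω} [IsProbabilityMeasure μ] {z : ℕ → Ω → ℂ}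

open scoped ComplexConjugate

lemma st_one (z : ℕ → ℂ) : st z 1 = 1 := by unfold st; simp

lemma st_pow (z : ℕ → ℂ) {a : ℕ} (ha : a ≠ 0) (k : ℕ) : st z (a ^ k) = st z a ^ k := by
  induction k with
  | zero => simp [st_one]
  | succ k ih => rw [pow_succ, st_mul z (pow_ne_zero k ha) ha, ih, pow_succ]

lemma st_prod (z : ℕ → ℂ) {ι : Type*} (S : Finset ι) (g : ι → ℕ) (hg : ∀ i ∈ S, g i ≠ 0) :
    st z (∏ i ∈ S, g i) = ∏ i ∈ S, st z (g i) := by
  classical
  induction S using Finset.induction_on with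
  | empty => simp [st_one]
  | insert a S ha ih =>
    rw [Finset.prod_insert ha, Finset.prod_insert ha, st_mul z (hg a (mem_insert_self _ _))
      (Finset.prod_ne_zero_iff.2 fun i hi => hg i (mem_insert_of_mem hi)),
      ih fun i hi => hg i (mem_insert_of_mem hi)]

lemma zp (w : ℂ) (hw : ‖w‖ = 1) (e : ℤ) : w ^ e.toNat * conj w ^ (-e).toNat = w ^ e := by
  have hw0 : w ≠ 0 := by intro h; rw [h] at hw; simp at hw
  have hc : conj w = w⁻¹ := by
    rw [Complex.inv_def, Complex.normSq_eq_norm_sq, hw]; simp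
  rw [hc, inv_pow]
  rcases le_or_gt 0 e with h | h
  · have h1 : (-e).toNat = 0 := by omega
    rw [h1, pow_zero, inv_one, mul_one]
    rw [← zpow_natCast, Int.toNat_of_nonneg h]
  · have h1 : e.toNat = 0 := by omega
    rw [h1, pow_zero, one_mul, ← zpow_natCast, Int.toNat_of_nonneg (by omega), zpow_neg, inv_inv]

lemma AA_eq {s : ℕ} (h : Fin s → ℕ) (e : Fin s → ℤ) (c : ℕ → ℂ) (h₀ n : ℕ) (z : ℕ → ℂ)
    (hz : ∀ p, ‖z p‖ = 1) (hn : 1 ≤ n) :
    AA (bb c h₀) (ss h e h₀) z (n + h₀) = c n * ∏ i, st z (n + h i) ^ e i := by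
  unfold AA bb ss
  simp only
  rw [if_pos (by omega), Nat.add_sub_cancel,
    st_prod z _ _ fun i _ => pow_ne_zero _ (by omega), st_prod z _ _ fun i _ => pow_ne_zero _ (by omega),
    map_prod, ← Finset.prod_mul_distrib]
  congr 1
  refine Finset.prod_congr rfl fun i _ => ?_
  rw [st_pow z (by omega), st_pow z (by omega), map_pow, zp _ (st_norm z hz _)]

lemma shifts (hz : Stein μ z) (c : ℕ → ℂ) (hc : ∀ n, ‖c n‖ ≤ 1) {s : ℕ} (h : Fin s → ℕ) (e : Fin s → ℤ)
    (h₀ : ℕ) (hs : 0 < s) (hinj : Function.Injective h) (hne : ∀ i, h i ≠ h₀) (he : ∀ i, e i ≠ 0) :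
    ∀ᵐ ω ∂μ, ∃ C : ℝ, 0 < C ∧ ∀ x : ℕ, 2 ≤ x → ∀ F : ℕ → ℂ, IsM F → (∀ k, ‖F k‖ ≤ 1) →
      ‖∑ n ∈ Icc 1 x, (∏ i, st (fun p => z p ω) (n + h i) ^ e i) * F (n + h₀) * c n‖ ≤
        C * x / Real.log x := by
  have hb : ∀ m, ‖bb c h₀ m‖ ≤ 1 := by
    intro m
    unfold bb
    split_ifs
    · exact hc _
    · simp
  set D : ℕ := ∑ i, ((e i).toNat + (-(e i)).toNat) with hD
  have hD1 : 1 ≤ D := by
    have h1 : (e ⟨0, hs⟩).toNat + (-(e ⟨0, hs⟩)).toNat ≤ D :=
      Finset.single_le_sum (f := fun i => (e i).toNat + (-(e i)).toNat) (fun _ _ => Nat.zero_le _)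
        (Finset.mem_univ _)
    have := he ⟨0, hs⟩
    omega
  filter_upwards [all_scales hz (bb c h₀) hb (ss h e h₀) (fun m hm => ss_ne h e c h₀ m hm) D hD1
    (few_ss h e c h₀ hs hinj hne he)] with ω hω
  obtain ⟨C, hC, hω⟩ := hω
  refine ⟨C * (1 + h₀), by positivity, fun x hx F hFm hF => ?_⟩
  have h1 := hω (x + h₀) (by omega) F hFm hF
  have hx1 : (1 : ℝ) < x := by exact_mod_cast hx
  have e0 : ∑ m ∈ Icc 1 (x + h₀), AA (bb c h₀) (ss h e h₀) (fun p => z p ω) m * F m =
      ∑ n ∈ Icc 1 x, (∏ i, st (fun p => z p ω) (n + h i) ^ e i) * F (n + h₀) * c n := by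
    symm
    have hinj' : Set.InjOn (fun n => n + h₀) (Icc 1 x : Set ℕ) := fun a _ b _ h => by simpa using h
    have e1 : ∑ m ∈ (Icc 1 x).image (fun n => n + h₀), AA (bb c h₀) (ss h e h₀) (fun p => z p ω) m * F m =
        ∑ n ∈ Icc 1 x, (∏ i, st (fun p => z p ω) (n + h i) ^ e i) * F (n + h₀) * c n := by
      rw [Finset.sum_image hinj']
      refine Finset.sum_congr rfl fun n hn => ?_
      rw [AA_eq h e c h₀ n (fun p => z p ω) (fun p => hz.norm_one p ω) (mem_Icc.1 hn).1]
      ring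
    rw [← e1]
    refine Finset.sum_subset ?_ fun m hm hm' => ?_
    · intro m hm
      rw [mem_image] at hm
      obtain ⟨n, hn, rfl⟩ := hm
      rw [mem_Icc] at hn ⊢
      omega
    · have hnot : ¬ h₀ < m := by
        intro hlt
        apply hm'
        rw [mem_image]
        rw [mem_Icc] at hm
        exact ⟨m - h₀, mem_Icc.2 ⟨by omega, by omega⟩, by omega⟩
      unfold AA bb
      rw [if_neg hnot]; simp
  rw [← e0]
  refine h1.trans ?_
  have hL : 0 < Real.log x := Real.log_pos hx1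
  have hL2 : Real.log x ≤ Real.log ((x + h₀ : ℕ) : ℝ) :=
    Real.log_le_log (by linarith) (by push_cast; have := Nat.cast_nonneg (α := ℝ) h₀; linarith)
  calc C * ((x + h₀ : ℕ) : ℝ) / Real.log ((x + h₀ : ℕ) : ℝ) ≤ C * ((1 + h₀) * x) / Real.log x := by
        have h5 : ((x + h₀ : ℕ) : ℝ) ≤ (1 + h₀) * x := by
          push_cast
          have := Nat.cast_nonneg (α := ℝ) h₀
          nlinarith
        gcongr
    _ = C * (1 + h₀) * x / Real.log x := by ring

end

end Pool.Agent.H25G
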