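import Mathlib

set_option autoImplicit false
set_option linter.unusedSectionVars false

/-!
H25G (helper25): Steinhaus random completely multiplicative functions; orthogonality; second moments.
-/

namespace Pool.Agent.H25G

open Finset MeasureTheory ProbabilityTheory
open scoped ComplexConjugate

/-- the completely multiplicative function with the values `z p` at the primes -/
noncomputable def st (z : ℕ → ℂ) (n : ℕ) : ℂ := n.factorization.prod fun p k => z p ^ k

lemma st_mul (z : ℕ → ℂ) {a b : ℕ} (ha : a ≠ 0) (hb : b ≠ 0) : st z (a * b) = st z a * st z b := by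
  unfold st
  rw [Nat.factorization_mul ha hb]
  exact Finsupp.prod_add_index' (by simp) (fun p k l => pow_add _ _ _)

lemma st_norm (z : ℕ → ℂ) (hz : ∀ p, ‖z p‖ = 1) (n : ℕ) : ‖st z n‖ = 1 := by
  unfold st Finsupp.prod
  rw [norm_prod]
  exact Finset.prod_eq_one fun p _ => by rw [norm_pow, hz, one_pow]

lemma st_eq (z : ℕ → ℂ) (n : ℕ) (S : Finset ℕ) (hS : n.primeFactors ⊆ S) :
    st z n = ∏ p ∈ S, z p ^ n.factorization p := by
  unfold st Finsupp.prod
  refine Finset.prod_subset hS fun p _ hp => ?_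
  show z p ^ n.factorization p = 1
  rw [Finsupp.notMem_support_iff.1 hp, pow_zero]

variable {Ω : Type*} [MeasurableSpace Ω] (μ : Measure Ω)

/-- independent random variables, uniformly distributed on the unit circle -/
structure Stein (z : ℕ → Ω → ℂ) : Prop where
  meas : ∀ p, Measurable (z p)
  indep : iIndepFun z μ
  norm_one : ∀ p ω, ‖z p ω‖ = 1
  mean : ∀ p m, 1 ≤ m → ∫ ω, z p ω ^ m ∂μ = 0

variable {μ} [IsProbabilityMeasure μ] {z : ℕ → Ω → ℂ}

lemma st_meas (hz : Stein μ z) (n : ℕ) : Measurable fun ω => st (fun p => z p ω) n := by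
  unfold st Finsupp.prod
  exact Finset.measurable_prod _ fun p _ => (hz.meas p).pow_const _

/-- one factor -/
lemma fac (hz : Stein μ z) (p i j : ℕ) (hij : i ≠ j) :
    ∫ ω, z p ω ^ i * conj (z p ω) ^ j ∂μ = 0 := by
  have h1 : ∀ ω, z p ω * conj (z p ω) = 1 := by
    intro ω
    rw [Complex.mul_conj, Complex.normSq_eq_norm_sq, hz.norm_one]; simp
  rcases lt_or_gt_of_ne hij with h | h
  · have e : ∀ ω, z p ω ^ i * conj (z p ω) ^ j = conj (z p ω ^ (j - i)) := by
      intro ω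
      rw [map_pow, show j = i + (j - i) by omega, pow_add, ← mul_assoc, ← mul_pow, h1, one_pow, one_mul]
      congr 1
      omega
    simp_rw [e]
    rw [integral_conj, hz.mean p (j - i) (by omega), map_zero]
  · have e : ∀ ω, z p ω ^ i * conj (z p ω) ^ j = z p ω ^ (i - j) := by
      intro ω
      rw [show i = (i - j) + j by omega, pow_add, mul_assoc, ← mul_pow, h1, one_pow, mul_one]
      congr 1
      omega
    simp_rw [e]
    exact hz.mean p (i - j) (by omega)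

/-- orthogonality -/
lemma orth (hz : Stein μ z) (a b : ℕ) (ha : a ≠ 0) (hb : b ≠ 0) (hab : a ≠ b) :
    ∫ ω, st (fun p => z p ω) a * conj (st (fun p => z p ω) b) ∂μ = 0 := by
  set S := a.primeFactors ∪ b.primeFactors with hS
  have hi : iIndepFun (fun i : S => z i) μ := hz.indep.precomp Subtype.val_injective
  have e : ∀ ω, st (fun p => z p ω) a * conj (st (fun p => z p ω) b) =
      ∏ i : S, (fun w : ℂ => w ^ a.factorization i * conj w ^ b.factorization i) (z i ω) := by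
    intro ω
    rw [st_eq _ a S (Finset.subset_union_left), st_eq _ b S (Finset.subset_union_right), map_prod,
      ← Finset.prod_mul_distrib, ← Finset.prod_coe_sort S]
    refine Finset.prod_congr rfl fun i _ => ?_
    simp only [map_pow]
  simp_rw [e]
  have h2 := hi.integral_fun_prod_comp (f := fun (i : S) (w : ℂ) =>
      w ^ a.factorization i * conj w ^ b.factorization i) (fun i => (hz.meas i).aemeasurable)
    (fun i => by
      have hc : Continuous fun w : ℂ => w ^ a.factorization i * conj w ^ b.factorization i := by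
        have := Complex.continuous_conj
        fun_prop
      exact hc.aestronglyMeasurable)
  rw [h2]
  have h3 : ∃ p ∈ S, a.factorization p ≠ b.factorization p := by
    by_contra hcon
    push Not at hcon
    apply hab
    apply Nat.eq_of_factorization_eq ha hb
    intro p
    by_cases hp : p ∈ S
    · exact hcon p hp
    · rw [hS, Finset.mem_union, not_or] at hp
      rw [Finsupp.notMem_support_iff.1 hp.1, Finsupp.notMem_support_iff.1 hp.2]
  obtain ⟨p, hp, hne⟩ := h3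
  exact Finset.prod_eq_zero (Finset.mem_univ (⟨p, hp⟩ : S)) (fac hz p _ _ hne)

/-! ### The second moment -/

/-- the random coefficients -/
noncomputable def AA (b : ℕ → ℂ) (σ : ℕ → ℕ × ℕ) (z : ℕ → ℂ) (m : ℕ) : ℂ :=
  b m * (st z (σ m).1 * conj (st z (σ m).2))

lemma AA_norm (b : ℕ → ℂ) (hb : ∀ m, ‖b m‖ ≤ 1) (σ : ℕ → ℕ × ℕ) (z : ℕ → ℂ) (hz : ∀ p, ‖z p‖ = 1) (m : ℕ) :
    ‖AA b σ z m‖ ≤ 1 := by
  unfold AA; rw [norm_mul, norm_mul, RCLike.norm_conj, st_norm z hz, st_norm z hz, mul_one, mul_one]; exact hb m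

lemma AA_meas (hz : Stein μ z) (b : ℕ → ℂ) (σ : ℕ → ℕ × ℕ) (m : ℕ) :
    Measurable fun ω => AA b σ (fun p => z p ω) m := by
  unfold AA
  exact ((st_meas hz _).mul (Complex.continuous_conj.measurable.comp (st_meas hz _))).const_mul _

/-- the off-diagonal sum -/
noncomputable def TT (b : ℕ → ℂ) (σ : ℕ → ℕ × ℕ) (z : ℕ → ℂ) (v : ℕ → ℝ) (S : Finset ℕ) (k l : ℕ) : ℂ :=
  ∑ q ∈ S, (v q : ℂ) * (AA b σ z (q * k) * conj (AA b σ z (q * l)))

lemma TT_meas (hz : Stein μ z) (b : ℕ → ℂ) (σ : ℕ → ℕ × ℕ) (v : ℕ → ℝ) (S : Finset ℕ) (k l : ℕ) :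
    Measurable fun ω => TT b σ (fun p => z p ω) v S k l := by
  unfold TT
  refine Finset.measurable_sum _ fun q _ => ?_
  exact ((AA_meas hz b σ _).mul (Complex.continuous_conj.measurable.comp (AA_meas hz b σ _))).const_mul _

lemma TT_norm (hz : Stein μ z) (b : ℕ → ℂ) (hb : ∀ m, ‖b m‖ ≤ 1) (σ : ℕ → ℕ × ℕ) (v : ℕ → ℝ)
    (hv : ∀ q, 0 ≤ v q) (S : Finset ℕ) (k l : ℕ) (ω : Ω) :
    ‖TT b σ (fun p => z p ω) v S k l‖ ≤ ∑ q ∈ S, v q := by
  unfold TT
  refine norm_sum_le_of_le _ fun q _ => ?_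
  rw [norm_mul, norm_mul, Complex.norm_real, Real.norm_eq_abs, abs_of_nonneg (hv q), RCLike.norm_conj]
  have h1 := AA_norm b hb σ (fun p => z p ω) (fun p => hz.norm_one p ω) (q * k)
  have h2 := AA_norm b hb σ (fun p => z p ω) (fun p => hz.norm_one p ω) (q * l)
  have h3 : ‖AA b σ (fun p => z p ω) (q * k)‖ * ‖AA b σ (fun p => z p ω) (q * l)‖ ≤ 1 := by
    have := norm_nonneg (AA b σ (fun p => z p ω) (q * k))
    have := norm_nonneg (AA b σ (fun p => z p ω) (q * l))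
    nlinarith
  nlinarith [hv q]

/-- coincidence -/
def Co (b : ℕ → ℂ) (σ : ℕ → ℕ × ℕ) (k l q q' : ℕ) : Prop :=
  b (q * k) ≠ 0 ∧ b (q * l) ≠ 0 ∧ b (q' * k) ≠ 0 ∧ b (q' * l) ≠ 0 ∧
  (σ (q * k)).1 * (σ (q' * l)).1 * ((σ (q * l)).2 * (σ (q' * k)).2) =
    (σ (q * l)).1 * (σ (q' * k)).1 * ((σ (q * k)).2 * (σ (q' * l)).2)

noncomputable instance (b : ℕ → ℂ) (σ : ℕ → ℕ × ℕ) (k l q q' : ℕ) : Decidable (Co b σ k l q q') :=
  Classical.propDecidable _

/-- the second moment of `TT` -/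
lemma second (hz : Stein μ z) (b : ℕ → ℂ) (hb : ∀ m, ‖b m‖ ≤ 1) (σ : ℕ → ℕ × ℕ) (v : ℕ → ℝ)
    (hv : ∀ q, 0 ≤ v q) (S : Finset ℕ) (V : ℝ) (hV : ∀ q ∈ S, v q ≤ V) (k l : ℕ) (D : ℕ)
    (hσ : ∀ m, b m ≠ 0 → (σ m).1 ≠ 0 ∧ (σ m).2 ≠ 0)
    (hD : ∀ q ∈ S, (S.filter fun q' => Co b σ k l q q').card ≤ D) :
    ∫ ω, ‖TT b σ (fun p => z p ω) v S k l‖ ^ 2 ∂μ ≤ D * S.card * V ^ 2 := by
  -- abbreviations
  set A : ℕ → Ω → ℂ := fun m ω => AA b σ (fun p => z p ω) m with hA
  have hAm : ∀ m, Measurable (A m) := fun m => AA_meas hz b σ m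
  have hAn : ∀ m ω, ‖A m ω‖ ≤ 1 := fun m ω => AA_norm b hb σ _ (fun p => hz.norm_one p ω) m
  have hcm : ∀ m, Measurable fun ω => conj (A m ω) := fun m =>
    Complex.continuous_conj.measurable.comp (hAm m)
  -- the four-fold product
  set P : ℕ → ℕ → Ω → ℂ := fun q q' ω =>
    ((v q : ℂ) * (A (q * k) ω * conj (A (q * l) ω))) *
      conj ((v q' : ℂ) * (A (q' * k) ω * conj (A (q' * l) ω))) with hP
  have hPm : ∀ q q', Measurable (P q q') := by
    intro q q'
    exact (((hAm _).mul (hcm _)).const_mul _).mul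
      (Complex.continuous_conj.measurable.comp (((hAm _).mul (hcm _)).const_mul _))
  have hPn : ∀ q q' ω, ‖P q q' ω‖ ≤ v q * v q' := by
    intro q q' ω
    rw [hP]
    simp only [norm_mul, RCLike.norm_conj, Complex.norm_real, Real.norm_eq_abs, abs_of_nonneg (hv _)]
    have h1 := hAn (q * k) ω
    have h2 := hAn (q * l) ω
    have h3 := hAn (q' * k) ω
    have h4 := hAn (q' * l) ω
    have h5 : ‖A (q * k) ω‖ * ‖A (q * l) ω‖ ≤ 1 := by
      have := norm_nonneg (A (q * k) ω); have := norm_nonneg (A (q * l) ω); nlinarith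
    have h6 : ‖A (q' * k) ω‖ * ‖A (q' * l) ω‖ ≤ 1 := by
      have := norm_nonneg (A (q' * k) ω); have := norm_nonneg (A (q' * l) ω); nlinarith
    apply mul_le_mul
    · nlinarith [hv q]
    · nlinarith [hv q']
    · have := hv q'; positivity
    · exact hv q
  have hPi : ∀ q q', Integrable (P q q') μ := by
    intro q q'
    exact Integrable.of_bound (hPm q q').aestronglyMeasurable (v q * v q')
      (ae_of_all _ fun ω => hPn q q' ω)
  have e1 : ∀ ω, ((‖TT b σ (fun p => z p ω) v S k l‖ ^ 2 : ℝ) : ℂ) = ∑ q ∈ S, ∑ q' ∈ S, P q q' ω := by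
    intro ω
    rw [← Complex.normSq_eq_norm_sq, ← Complex.mul_conj]
    unfold TT
    rw [map_sum, Finset.sum_mul_sum]
  have e2 : ((∫ ω, ‖TT b σ (fun p => z p ω) v S k l‖ ^ 2 ∂μ : ℝ) : ℂ) =
      ∑ q ∈ S, ∑ q' ∈ S, ∫ ω, P q q' ω ∂μ := by
    rw [← integral_complex_ofReal]
    simp_rw [e1]
    rw [integral_finsetSum _ fun q _ => integrable_finsetSum _ fun q' _ => hPi q q']
    refine Finset.sum_congr rfl fun q _ => ?_
    rw [integral_finsetSum _ fun q' _ => hPi q q']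
  have e3 : ∀ q q', ¬ Co b σ k l q q' → ∫ ω, P q q' ω ∂μ = 0 := by
    intro q q' hq
    by_cases h0 : b (q * k) ≠ 0 ∧ b (q * l) ≠ 0 ∧ b (q' * k) ≠ 0 ∧ b (q' * l) ≠ 0
    · obtain ⟨b1, b2, b3, b4⟩ := h0
      have s1 := hσ _ b1
      have s2 := hσ _ b2
      have s3 := hσ _ b3
      have s4 := hσ _ b4
      have hne : (σ (q * k)).1 * (σ (q' * l)).1 * ((σ (q * l)).2 * (σ (q' * k)).2) ≠
          (σ (q * l)).1 * (σ (q' * k)).1 * ((σ (q * k)).2 * (σ (q' * l)).2) := by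
        intro he
        exact hq ⟨b1, b2, b3, b4, he⟩
      have e4 : ∀ ω, P q q' ω = ((v q : ℂ) * v q' * b (q * k) * conj (b (q * l)) *
          conj (b (q' * k)) * b (q' * l)) *
          (st (fun p => z p ω) ((σ (q * k)).1 * (σ (q' * l)).1 * ((σ (q * l)).2 * (σ (q' * k)).2)) *
            conj (st (fun p => z p ω)
              ((σ (q * l)).1 * (σ (q' * k)).1 * ((σ (q * k)).2 * (σ (q' * l)).2)))) := by
        intro ω
        rw [hP, hA]
        simp only [AA]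
        rw [st_mul _ (mul_ne_zero s1.1 s4.1) (mul_ne_zero s2.2 s3.2), st_mul _ s1.1 s4.1,
          st_mul _ s2.2 s3.2, st_mul _ (mul_ne_zero s2.1 s3.1) (mul_ne_zero s1.2 s4.2),
          st_mul _ s2.1 s3.1, st_mul _ s1.2 s4.2]
        simp only [map_mul, Complex.conj_conj, Complex.conj_ofReal]
        ring
      simp_rw [e4]
      rw [integral_const_mul, orth hz _ _ (mul_ne_zero (mul_ne_zero s1.1 s4.1) (mul_ne_zero s2.2 s3.2))
        (mul_ne_zero (mul_ne_zero s2.1 s3.1) (mul_ne_zero s1.2 s4.2)) hne, mul_zero]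
    · have e5 : ∀ ω, P q q' ω = 0 := by
        intro ω
        rw [hP, hA]
        simp only [AA]
        by_contra hcon
        apply h0
        refine ⟨?_, ?_, ?_, ?_⟩ <;> · intro hb0; apply hcon; rw [hb0]; simp
      simp_rw [e5]; simp
  have h0 : 0 ≤ ∫ ω, ‖TT b σ (fun p => z p ω) v S k l‖ ^ 2 ∂μ :=
    integral_nonneg fun ω => by positivity
  have hPV : ∀ q ∈ S, ∀ q' ∈ S, ‖∫ ω, P q q' ω ∂μ‖ ≤ if Co b σ k l q q' then V ^ 2 else 0 := by
    intro q hq q' hq'
    split_ifs with hc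
    · have h1 := norm_integral_le_of_norm_le_const (μ := μ) (ae_of_all _ fun ω => hPn q q' ω)
      have h2 : ‖∫ ω, P q q' ω ∂μ‖ ≤ v q * v q' := by simpa using h1
      have h3 := hV q hq
      have h4 := hV q' hq'
      have h5 := hv q
      have h6 := hv q'
      nlinarith
    · rw [e3 q q' hc, norm_zero]
  calc ∫ ω, ‖TT b σ (fun p => z p ω) v S k l‖ ^ 2 ∂μ
      = ‖((∫ ω, ‖TT b σ (fun p => z p ω) v S k l‖ ^ 2 ∂μ : ℝ) : ℂ)‖ := by
        rw [Complex.norm_real, Real.norm_eq_abs, abs_of_nonneg h0]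
    _ ≤ ∑ q ∈ S, ∑ q' ∈ S, (if Co b σ k l q q' then V ^ 2 else 0) := by
        rw [e2]
        exact norm_sum_le_of_le _ fun q hq => norm_sum_le_of_le _ fun q' hq' => hPV q hq q' hq'
    _ ≤ ∑ q ∈ S, (D : ℝ) * V ^ 2 := by
        refine Finset.sum_le_sum fun q hq => ?_
        rw [← Finset.sum_filter, Finset.sum_const, nsmul_eq_mul]
        have h7 : ((S.filter fun q' => Co b σ k l q q').card : ℝ) ≤ D := by exact_mod_cast hD q hq
        gcongr
    _ = D * S.card * V ^ 2 := by rw [Finset.sum_const, nsmul_eq_mul]; ring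

/-- the first absolute moment -/
lemma first (hz : Stein μ z) (b : ℕ → ℂ) (hb : ∀ m, ‖b m‖ ≤ 1) (σ : ℕ → ℕ × ℕ) (v : ℕ → ℝ)
    (hv : ∀ q, 0 ≤ v q) (S : Finset ℕ) (V : ℝ) (hV : ∀ q ∈ S, v q ≤ V) (k l : ℕ) (D : ℕ)
    (hσ : ∀ m, b m ≠ 0 → (σ m).1 ≠ 0 ∧ (σ m).2 ≠ 0)
    (hD : ∀ q ∈ S, (S.filter fun q' => Co b σ k l q q').card ≤ D)
    (W : ℝ) (hW : 0 < W) (hS : D * S.card * V ^ 2 ≤ W ^ 2) :
    ∫ ω, ‖TT b σ (fun p => z p ω) v S k l‖ ∂μ ≤ W := by
  have hm := TT_meas hz b σ v S k l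
  have hn := TT_norm hz b hb σ v hv S k l
  have i1 : Integrable (fun ω => ‖TT b σ (fun p => z p ω) v S k l‖) μ :=
    Integrable.of_bound hm.norm.aestronglyMeasurable (∑ q ∈ S, v q)
      (ae_of_all _ fun ω => by rw [norm_norm]; exact hn ω)
  have i2 : Integrable (fun ω => ‖TT b σ (fun p => z p ω) v S k l‖ ^ 2) μ :=
    Integrable.of_bound (hm.norm.pow_const 2).aestronglyMeasurable ((∑ q ∈ S, v q) ^ 2)
      (ae_of_all _ fun ω => by
        rw [norm_pow, norm_norm]; exact pow_le_pow_left₀ (norm_nonneg _) (hn ω) 2)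
  have h1 := (second hz b hb σ v hv S V hV k l D hσ hD).trans hS
  have h2 : ∀ ω, ‖TT b σ (fun p => z p ω) v S k l‖ ≤
      (1 / 2) * W + (1 / (2 * W)) * ‖TT b σ (fun p => z p ω) v S k l‖ ^ 2 := by
    intro ω
    set t := ‖TT b σ (fun p => z p ω) v S k l‖
    have e : (1 / 2) * W + (1 / (2 * W)) * t ^ 2 - t = (1 / (2 * W)) * (t - W) ^ 2 := by
      field_simp; ring
    have : 0 ≤ (1 / (2 * W)) * (t - W) ^ 2 := by positivity
    linarith
  calc ∫ ω, ‖TT b σ (fun p => z p ω) v S k l‖ ∂μ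
      ≤ ∫ ω, ((1 / 2) * W + (1 / (2 * W)) * ‖TT b σ (fun p => z p ω) v S k l‖ ^ 2) ∂μ :=
        integral_mono i1 ((integrable_const _).add (i2.const_mul _)) h2
    _ = (1 / 2) * W + (1 / (2 * W)) * ∫ ω, ‖TT b σ (fun p => z p ω) v S k l‖ ^ 2 ∂μ := by
        rw [integral_add (integrable_const _) (i2.const_mul _), integral_const_mul (1 / (2 * W)),
          integral_const]
        simp
    _ ≤ (1 / 2) * W + (1 / (2 * W)) * W ^ 2 := by gcongr
    _ = W := by field_simp; ring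

end Pool.Agent.H25G
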