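import Pool.Agent.H25G.Ar
import Pool.Agent.H25G.St

set_option autoImplicit false
set_option linter.unusedSectionVars false

/-!
H25G (helper25): the off-diagonal sums: mean value, and the Cauchy-Schwarz inequality.
-/

namespace Pool.Agent.H25G

open Finset MeasureTheory ProbabilityTheory
open scoped ComplexConjugate

/-- `qk ≤ N` and `q` is larger than all prime factors of `k` -/
def Sq (N q k : ℕ) : Prop := 1 ≤ k ∧ q * k ≤ N ∧ ∀ p, p.Prime → p ∣ k → p < q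

noncomputable instance (N q k : ℕ) : Decidable (Sq N q k) := Classical.propDecidable _

/-- the sum over the off-diagonal pairs -/
noncomputable def OFF (b : ℕ → ℂ) (σ : ℕ → ℕ × ℕ) (v : ℕ → ℝ) (Q : Finset ℕ) (N M : ℕ) (z : ℕ → ℂ) : ℝ :=
  ∑ k ∈ Icc 1 M, ∑ l ∈ (Icc 1 M).filter (fun l => k ≠ l),
    ‖TT b σ z v (Q.filter fun q => Sq N q k ∧ Sq N q l) k l‖

section det

variable (b : ℕ → ℂ) (hb : ∀ m, ‖b m‖ ≤ 1) (σ : ℕ → ℕ × ℕ) (z : ℕ → ℂ) (hz : ∀ p, ‖z p‖ = 1)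
include hb hz

lemma TT_diag (v : ℕ → ℝ) (hv : ∀ q, 0 ≤ v q) (S : Finset ℕ) (k : ℕ) :
    ‖TT b σ z v S k k‖ ≤ ∑ q ∈ S, v q := by
  unfold TT
  refine norm_sum_le_of_le _ fun q _ => ?_
  rw [norm_mul, norm_mul, Complex.norm_real, Real.norm_eq_abs, abs_of_nonneg (hv q), RCLike.norm_conj]
  have h1 := AA_norm b hb σ z hz (q * k)
  have h3 : ‖AA b σ z (q * k)‖ * ‖AA b σ z (q * k)‖ ≤ 1 := by
    have := norm_nonneg (AA b σ z (q * k))
    nlinarith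
  nlinarith [hv q]

/-- the sum over `k` for a given `q` -/
noncomputable def GS (b : ℕ → ℂ) (σ : ℕ → ℕ × ℕ) (z : ℕ → ℂ) (F : ℕ → ℂ) (N M q : ℕ) : ℂ :=
  ∑ k ∈ Icc 1 M, if Sq N q k then AA b σ z (q * k) * F k else 0

lemma GS_sq (v : ℕ → ℝ) (hv : ∀ q, 0 ≤ v q) (F : ℕ → ℂ) (hF : ∀ k, ‖F k‖ ≤ 1) (Q : Finset ℕ)
    (hQ : ∀ q ∈ Q, 1 ≤ q) (N M : ℕ) :
    ∑ q ∈ Q, v q * ‖GS b σ z F N M q‖ ^ 2 ≤ ∑ q ∈ Q, v q * ((N : ℝ) / q) + OFF b σ v Q N M z := by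
  have e1 : ((∑ q ∈ Q, v q * ‖GS b σ z F N M q‖ ^ 2 : ℝ) : ℂ) =
      ∑ k ∈ Icc 1 M, ∑ l ∈ Icc 1 M, F k * conj (F l) *
        TT b σ z v (Q.filter fun q => Sq N q k ∧ Sq N q l) k l := by
    have e2 : ∀ q, ((v q * ‖GS b σ z F N M q‖ ^ 2 : ℝ) : ℂ) = ∑ k ∈ Icc 1 M, ∑ l ∈ Icc 1 M,
        F k * conj (F l) * (if Sq N q k ∧ Sq N q l then
          (v q : ℂ) * (AA b σ z (q * k) * conj (AA b σ z (q * l))) else 0) := by
      intro q
      rw [Complex.ofReal_mul, ← Complex.normSq_eq_norm_sq, ← Complex.mul_conj]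
      unfold GS
      rw [map_sum, Finset.sum_mul_sum, Finset.mul_sum]
      refine Finset.sum_congr rfl fun k _ => ?_
      rw [Finset.mul_sum]
      refine Finset.sum_congr rfl fun l _ => ?_
      by_cases h1 : Sq N q k
      · by_cases h2 : Sq N q l
        · simp only [h1, h2, if_true, and_self, map_mul]; ring
        · simp [h1, h2]
      · simp [h1]
    rw [Complex.ofReal_sum, Finset.sum_congr rfl fun q _ => e2 q, Finset.sum_comm]
    refine Finset.sum_congr rfl fun k _ => ?_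
    rw [Finset.sum_comm]
    refine Finset.sum_congr rfl fun l _ => ?_
    rw [← Finset.mul_sum]
    unfold TT
    rw [Finset.sum_filter]
  have h0 : 0 ≤ ∑ q ∈ Q, v q * ‖GS b σ z F N M q‖ ^ 2 :=
    Finset.sum_nonneg fun q _ => mul_nonneg (hv q) (by positivity)
  have h1 : ∑ q ∈ Q, v q * ‖GS b σ z F N M q‖ ^ 2 ≤ ∑ k ∈ Icc 1 M, ∑ l ∈ Icc 1 M,
      ‖TT b σ z v (Q.filter fun q => Sq N q k ∧ Sq N q l) k l‖ := by
    calc ∑ q ∈ Q, v q * ‖GS b σ z F N M q‖ ^ 2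
        = ‖((∑ q ∈ Q, v q * ‖GS b σ z F N M q‖ ^ 2 : ℝ) : ℂ)‖ := by
          rw [Complex.norm_real, Real.norm_eq_abs, abs_of_nonneg h0]
      _ ≤ _ := by
          rw [e1]
          refine norm_sum_le_of_le _ fun k _ => norm_sum_le_of_le _ fun l _ => ?_
          rw [norm_mul, norm_mul, RCLike.norm_conj]
          have h2 : ‖F k‖ * ‖F l‖ ≤ 1 := by
            have := norm_nonneg (F k); have := norm_nonneg (F l)
            nlinarith [hF k, hF l]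
          have := norm_nonneg (TT b σ z v (Q.filter fun q => Sq N q k ∧ Sq N q l) k l)
          nlinarith
  refine h1.trans ?_
  have e3 : ∑ k ∈ Icc 1 M, ∑ l ∈ Icc 1 M,
      ‖TT b σ z v (Q.filter fun q => Sq N q k ∧ Sq N q l) k l‖ =
      ∑ k ∈ Icc 1 M, ‖TT b σ z v (Q.filter fun q => Sq N q k ∧ Sq N q k) k k‖ + OFF b σ v Q N M z := by
    unfold OFF
    rw [← Finset.sum_add_distrib]
    refine Finset.sum_congr rfl fun k hk => ?_
    rw [← Finset.sum_filter_add_sum_filter_not (Icc 1 M) (fun l => k = l)]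
    congr 1
    rw [Finset.filter_eq, if_pos hk, Finset.sum_singleton]
  rw [e3]
  gcongr
  calc ∑ k ∈ Icc 1 M, ‖TT b σ z v (Q.filter fun q => Sq N q k ∧ Sq N q k) k k‖
      ≤ ∑ k ∈ Icc 1 M, ∑ q ∈ Q, if Sq N q k then v q else 0 := by
        refine Finset.sum_le_sum fun k _ => ?_
        refine (TT_diag b hb σ z hz v hv _ k).trans ?_
        simp only [and_self]
        rw [Finset.sum_filter]
    _ = ∑ q ∈ Q, v q * ((Icc 1 M).filter fun k => Sq N q k).card := by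
        rw [Finset.sum_comm]
        refine Finset.sum_congr rfl fun q _ => ?_
        rw [← Finset.sum_filter, Finset.sum_const, nsmul_eq_mul, mul_comm]
    _ ≤ ∑ q ∈ Q, v q * ((N : ℝ) / q) := by
        refine Finset.sum_le_sum fun q hq => ?_
        have hq0 : (0 : ℝ) < q := by exact_mod_cast hQ q hq
        refine mul_le_mul_of_nonneg_left ?_ (hv q)
        rw [le_div_iff₀ hq0]
        have h3 : ((Icc 1 M).filter fun k => Sq N q k) ⊆ Icc 1 (N / q) := by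
          intro k hk
          rw [mem_filter] at hk
          rw [mem_Icc]
          refine ⟨hk.2.1, ?_⟩
          rw [Nat.le_div_iff_mul_le (hQ q hq), mul_comm]
          exact hk.2.2.1
        have h4 := Finset.card_le_card h3
        rw [Nat.card_Icc, Nat.add_sub_cancel] at h4
        have h5 : ((Icc 1 M).filter fun k => Sq N q k).card * q ≤ N :=
          (Nat.mul_le_mul_right q h4).trans (Nat.div_mul_le_self N q)
        exact_mod_cast h5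

/-- the Cauchy-Schwarz inequality -/
lemma GS_sum (v : ℕ → ℝ) (hv : ∀ q, 1 ≤ q → 0 < v q) (hv0 : ∀ q, 0 ≤ v q) (F : ℕ → ℂ)
    (hF : ∀ k, ‖F k‖ ≤ 1) (Q : Finset ℕ) (hQ : ∀ q ∈ Q, 1 ≤ q) (N M : ℕ) :
    (∑ q ∈ Q, ‖GS b σ z F N M q‖) ^ 2 ≤
      (∑ q ∈ Q, (v q)⁻¹) * (∑ q ∈ Q, v q * ((N : ℝ) / q) + OFF b σ v Q N M z) := by
  have h1 := Finset.sum_sq_le_sum_mul_sum_of_sq_eq_mul Q (r := fun q => ‖GS b σ z F N M q‖)
    (f := fun q => (v q)⁻¹) (g := fun q => v q * ‖GS b σ z F N M q‖ ^ 2)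
    (fun q _ => inv_nonneg.2 (hv0 q)) (fun q _ => mul_nonneg (hv0 q) (by positivity))
    (fun q hq => by
      have := (hv q (hQ q hq)).ne'
      field_simp)
  refine h1.trans (mul_le_mul_of_nonneg_left (GS_sq b hb σ z hz v hv0 F hF Q hQ N M) ?_)
  exact Finset.sum_nonneg fun q _ => inv_nonneg.2 (hv0 q)

end det

/-! ### The mean of the off-diagonal sum -/

variable {Ω : Type*} [MeasurableSpace Ω] {μ : Measure Ω} [IsProbabilityMeasure μ] {z : ℕ → Ω → ℂ}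

/-- the weight -/
noncomputable def vv (N : ℕ) (a : ℝ) (q : ℕ) : ℝ := ((q : ℝ) / N) ^ a

lemma OFF_int (hz : Stein μ z) (b : ℕ → ℂ) (hb : ∀ m, ‖b m‖ ≤ 1) (σ : ℕ → ℕ × ℕ) (v : ℕ → ℝ)
    (hv : ∀ q, 0 ≤ v q) (Q : Finset ℕ) (N M : ℕ) :
    Integrable (fun ω => OFF b σ v Q N M (fun p => z p ω)) μ := by
  unfold OFF
  refine integrable_finsetSum _ fun k _ => integrable_finsetSum _ fun l _ => ?_
  exact Integrable.of_bound (TT_meas hz b σ v _ k l).norm.aestronglyMeasurable _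
    (ae_of_all _ fun ω => by rw [norm_norm]; exact TT_norm hz b hb σ v hv _ k l ω)

lemma OFF_nonneg (b : ℕ → ℂ) (σ : ℕ → ℕ × ℕ) (v : ℕ → ℝ) (Q : Finset ℕ) (N M : ℕ) (z : ℕ → ℂ) :
    0 ≤ OFF b σ v Q N M z := by
  unfold OFF
  exact Finset.sum_nonneg fun k _ => Finset.sum_nonneg fun l _ => norm_nonneg _

/-- few coincidences -/
def Few (b : ℕ → ℂ) (σ : ℕ → ℕ × ℕ) (D : ℕ) : Prop :=
  ∀ k l : ℕ, k ≠ l → ∀ (q : ℕ) (S : Finset ℕ), (S.filter fun q' => Co b σ k l q q').card ≤ D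

/-- the mean of the off-diagonal sum -/
lemma OFF_mean (hz : Stein μ z) (b : ℕ → ℂ) (hb : ∀ m, ‖b m‖ ≤ 1) (σ : ℕ → ℕ × ℕ)
    (hσ : ∀ m, b m ≠ 0 → (σ m).1 ≠ 0 ∧ (σ m).2 ≠ 0) (D : ℕ) (hD1 : 1 ≤ D) (hH : Few b σ D)
    (a β : ℝ) (ha : 0 ≤ a) (hβ : β = 3 / 4 - a / 2) (hβ0 : 0 < β) (hβ1 : β ≤ 1) (Q : Finset ℕ)
    (hQ : ∀ q ∈ Q, 1 ≤ q) (N M : ℕ) (hN : 1 ≤ N) :
    ∫ ω, OFF b σ (vv N a) Q N M (fun p => z p ω) ∂μ ≤
      D * ((N : ℝ) ^ (1 / 2 : ℝ) * ((M : ℝ) ^ β / β) ^ 2) := by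
  have hN0 : (0 : ℝ) < N := by exact_mod_cast hN
  have hD0 : (1 : ℝ) ≤ D := by exact_mod_cast hD1
  have hv : ∀ q, 0 ≤ vv N a q := fun q => by unfold vv; positivity
  have hi : ∀ k l : ℕ, Integrable (fun ω => ‖TT b σ (fun p => z p ω) (vv N a)
      (Q.filter fun q => Sq N q k ∧ Sq N q l) k l‖) μ := fun k l =>
    Integrable.of_bound (TT_meas hz b σ _ _ k l).norm.aestronglyMeasurable _
      (ae_of_all _ fun ω => by rw [norm_norm]; exact TT_norm hz b hb σ _ hv _ k l ω)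
  unfold OFF
  rw [integral_finsetSum _ fun k _ => integrable_finsetSum _ fun l _ => hi k l]
  simp_rw [integral_finsetSum _ fun l _ => hi _ l]
  have key : ∀ k ∈ Icc 1 M, ∀ l ∈ (Icc 1 M).filter (fun l => k ≠ l),
      ∫ ω, ‖TT b σ (fun p => z p ω) (vv N a) (Q.filter fun q => Sq N q k ∧ Sq N q l) k l‖ ∂μ ≤
        D * ((N : ℝ) ^ (1 / 2 : ℝ) * ((k : ℝ) ^ (β - 1) * (l : ℝ) ^ (β - 1))) := by
    intro k hk l hl
    rw [mem_filter] at hl
    have hk0 : (0 : ℝ) < k := by exact_mod_cast (mem_Icc.1 hk).1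
    have hl0 : (0 : ℝ) < l := by exact_mod_cast (mem_Icc.1 hl.1).1
    set S := Q.filter fun q => Sq N q k ∧ Sq N q l with hS
    set R : ℝ := N * ((k : ℝ) * l) ^ (-(1 / 2) : ℝ) with hR
    have hR0 : 0 < R := by positivity
    have hqR : ∀ q ∈ S, 1 ≤ q ∧ (q : ℝ) ≤ R := by
      intro q hq
      rw [hS, mem_filter] at hq
      refine ⟨hQ q hq.1, ?_⟩
      have h1 : (q : ℝ) * k ≤ N := by exact_mod_cast hq.2.1.2.1
      have h2 : (q : ℝ) * l ≤ N := by exact_mod_cast hq.2.2.2.1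
      have h3 : (0 : ℝ) ≤ q := Nat.cast_nonneg q
      have h4 : (q : ℝ) ^ 2 * (k * l) ≤ (N : ℝ) ^ 2 := by
        calc (q : ℝ) ^ 2 * (k * l) = (q * k) * (q * l) := by ring
          _ ≤ N * N := by gcongr
          _ = (N : ℝ) ^ 2 := by ring
      have h5 : (q : ℝ) * ((k : ℝ) * l) ^ (1 / 2 : ℝ) ≤ N := by
        apply le_of_sq_le_sq _ hN0.le |>.trans le_rfl
        rw [mul_pow, ← Real.rpow_natCast (((k : ℝ) * l) ^ (1 / 2 : ℝ)) 2, ← Real.rpow_mul (by positivity)]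
        norm_num
        exact h4
      rw [hR, Real.rpow_neg (by positivity), ← div_eq_mul_inv, le_div_iff₀ (by positivity)]
      exact h5
    have hc : (S.card : ℝ) ≤ R := by
      have h6 : S ⊆ Icc 1 ⌊R⌋₊ := by
        intro q hq
        rw [mem_Icc]
        exact ⟨(hqR q hq).1, Nat.le_floor (hqR q hq).2⟩
      have h7 := Finset.card_le_card h6
      rw [Nat.card_Icc, Nat.add_sub_cancel] at h7
      calc (S.card : ℝ) ≤ (⌊R⌋₊ : ℝ) := by exact_mod_cast h7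
        _ ≤ R := Nat.floor_le hR0.le
    refine first hz b hb σ (vv N a) hv S ((R / N) ^ a) (fun q hq => ?_) k l D hσ
      (fun q hq => hH k l hl.2 q S) _ (by positivity) ?_
    · unfold vv
      have := (hqR q hq).2
      gcongr
    calc (D : ℝ) * S.card * ((R / N) ^ a) ^ 2 ≤ (D : ℝ) ^ 2 * (R * ((R / N) ^ a) ^ 2) := by
          have h8 : (D : ℝ) ≤ (D : ℝ) ^ 2 := by nlinarith
          calc (D : ℝ) * S.card * ((R / N) ^ a) ^ 2 = D * (S.card * ((R / N) ^ a) ^ 2) := by ring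
            _ ≤ (D : ℝ) ^ 2 * (R * ((R / N) ^ a) ^ 2) := by gcongr
      _ = (D * ((N : ℝ) ^ (1 / 2 : ℝ) * ((k : ℝ) ^ (β - 1) * (l : ℝ) ^ (β - 1)))) ^ 2 := by
          have e1 : R / N = ((k : ℝ) * l) ^ (-(1 / 2) : ℝ) := by rw [hR]; field_simp
          rw [mul_pow (D : ℝ)]
          congr 1
          rw [e1, hR, mul_pow (((N : ℝ)) ^ (1 / 2 : ℝ)), ← Real.mul_rpow hk0.le hl0.le,
            ← Real.rpow_natCast ((N : ℝ) ^ (1 / 2 : ℝ)) 2, ← Real.rpow_mul hN0.le,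
            ← Real.rpow_natCast (((k : ℝ) * l) ^ (β - 1)) 2, ← Real.rpow_mul (by positivity),
            ← Real.rpow_mul (by positivity), ← Real.rpow_natCast _ 2, ← Real.rpow_mul (by positivity),
            mul_assoc, ← Real.rpow_add (by positivity)]
          congr 1
          · norm_num
          · congr 1; rw [hβ]; push_cast; ring
  calc ∑ k ∈ Icc 1 M, ∑ l ∈ (Icc 1 M).filter (fun l => k ≠ l),
        ∫ ω, ‖TT b σ (fun p => z p ω) (vv N a) (Q.filter fun q => Sq N q k ∧ Sq N q l) k l‖ ∂μ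
      ≤ ∑ k ∈ Icc 1 M, ∑ l ∈ (Icc 1 M).filter (fun l => k ≠ l),
        D * ((N : ℝ) ^ (1 / 2 : ℝ) * ((k : ℝ) ^ (β - 1) * (l : ℝ) ^ (β - 1))) :=
        Finset.sum_le_sum fun k hk => Finset.sum_le_sum fun l hl => key k hk l hl
    _ ≤ ∑ k ∈ Icc 1 M, ∑ l ∈ Icc 1 M,
        D * ((N : ℝ) ^ (1 / 2 : ℝ) * ((k : ℝ) ^ (β - 1) * (l : ℝ) ^ (β - 1))) :=
        Finset.sum_le_sum fun k _ => Finset.sum_le_sum_of_subset_of_nonneg (Finset.filter_subset _ _)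
          fun _ _ _ => by positivity
    _ = D * ((N : ℝ) ^ (1 / 2 : ℝ) * (∑ k ∈ Icc 1 M, (k : ℝ) ^ (β - 1)) ^ 2) := by
        rw [sq, Finset.sum_mul_sum, Finset.mul_sum, Finset.mul_sum]
        refine Finset.sum_congr rfl fun k _ => ?_
        rw [Finset.mul_sum, Finset.mul_sum]
    _ ≤ D * ((N : ℝ) ^ (1 / 2 : ℝ) * ((M : ℝ) ^ β / β) ^ 2) := by
        have := sum_rpow β hβ0 hβ1 M
        gcongr

end Pool.Agent.H25G
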